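import Pool.Agent.Helper2.GLM.Chain

/-!
# Algebras of functions on a disjoint union of chains

`A` is a unital algebra of functions on the disjoint union of the chains `{0, …, D i - 1}`, `i ∈ I`,
stable under the second difference operator. We suppose that the points of one chain are separated
by `A`, up to the symmetry `l ↦ D i - 1 - l` if `fm i`. Two chains which are not separated by `A`
are matched.
-/

set_option autoImplicit false
set_option linter.unusedSectionVars false

namespace Pool.Agent.Helper2.OP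

open Finset Pool.Agent.Helper2.MU Pool.Agent.Helper2.GLM

/-- `x` is in the class of `l` -/
def Own (fm : Prop) (P l x : ℕ) : Prop := x = l ∨ (fm ∧ x + l + 1 = P)

open Classical in
/-- the indicator function of the class of `l` -/
noncomputable def ow (fm : Prop) (P l x : ℕ) : ℤ := if Own fm P l x then 1 else 0

/-- the second difference operator, with integral coefficients -/
def tz (P : ℕ) (c : ℕ → ℤ) (x : ℕ) : ℤ :=
  (if x = 0 then 0 else kz P (x - 1) * c (x - 1)) + kz P (x + 1) * c (x + 1) - 2 * (kz P x * c x)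

theorem kz_nonneg {P x : ℕ} (hx : x ≤ P) : 0 ≤ kz P x := by
  unfold kz
  have h1 : (0 : ℤ) ≤ (P : ℤ) - x := by omega
  positivity

theorem kz_pos {P x : ℕ} (hx : x < P) : 0 < kz P x := by
  unfold kz
  have h1 : (0 : ℤ) < (P : ℤ) - x := by omega
  positivity

theorem kz_top (P : ℕ) : kz P P = 0 := by
  unfold kz
  rw [sub_self, mul_zero]

variable {K : Type*} [Field K] [CharZero K] {I : Type*}

theorem tp_cast (P : ℕ) (c : ℕ → ℤ) (x : ℕ) :
    tp P (fun y => ((c y : ℤ) : K)) x = ((tz P c x : ℤ) : K) := by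
  unfold tp tz
  rw [← kz_cast, ← kz_cast, ← kz_cast]
  push_cast
  congr 2

theorem tp_congr {P : ℕ} {r r' : ℕ → K} (h : ∀ y, y < P → r y = r' y) {x : ℕ} (hx : x < P) :
    tp P r x = tp P r' x := by
  unfold tp
  rw [h x hx]
  congr 2
  · by_cases h0 : x = 0
    · rw [if_pos h0, if_pos h0]
    · rw [if_neg h0, if_neg h0, h (x - 1) (by omega)]
  · rcases Nat.lt_or_ge (x + 1) P with h1 | h1
    · rw [h _ h1]
    · rw [show x + 1 = P by omega, kap_top, zero_mul, zero_mul]

variable (D : I → ℕ) (fm : I → Prop) (A : Subalgebra K (I → ℕ → K))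

/-- two points with the same values -/
def Eqv2 (i : I) (l : ℕ) (j : I) (l' : ℕ) : Prop := ∀ r ∈ A, r i l = r j l'

theorem Eqv2.symm {A : Subalgebra K (I → ℕ → K)} {i j : I} {l l' : ℕ} (h : Eqv2 A i l j l') :
    Eqv2 A j l' i l := fun r hr => (h r hr).symm

theorem Eqv2.trans {A : Subalgebra K (I → ℕ → K)} {i j m : I} {l l' l'' : ℕ}
    (h : Eqv2 A i l j l') (h' : Eqv2 A j l' m l'') : Eqv2 A i l m l'' :=
  fun r hr => (h r hr).trans (h' r hr)

/-- the hypotheses -/
structure Good : Prop where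
  T : ∀ r ∈ A, (fun i => tp (D i) (r i)) ∈ A
  congr : ∀ r ∈ A, ∀ r' : I → ℕ → K, (∀ i l, l < D i → r i l = r' i l) → r' ∈ A
  sym : ∀ i, fm i → ∀ r ∈ A, ∀ l, l < D i → r i (D i - 1 - l) = r i l
  sep : ∀ i l l', l < D i → l' < D i → Eqv2 A i l i l' → Own (fm i) (D i) l l'

variable {D fm A} (hA : Good D fm A)

open Classical in
/-- the idempotent of a class -/
theorem exists_idem2 [Fintype I] (i : I) (l : ℕ) :
    ∃ b ∈ A, ∀ j l', l' < D j → b j l' = if Eqv2 A i l j l' then 1 else 0 := by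
  have h1 : ∀ p : I × ℕ, ¬ Eqv2 A i l p.1 p.2 → ∃ s ∈ A, s p.1 p.2 = 0 ∧
      ∀ q : I × ℕ, Eqv2 A i l q.1 q.2 → s q.1 q.2 = 1 := by
    intro p hp
    unfold Eqv2 at hp
    push Not at hp
    obtain ⟨r, hr, hne⟩ := hp
    have hne' : r i l - r p.1 p.2 ≠ 0 := sub_ne_zero.2 hne
    refine ⟨(r i l - r p.1 p.2)⁻¹ • (r - algebraMap K (I → ℕ → K) (r p.1 p.2)),
      A.smul_mem (A.sub_mem hr (A.algebraMap_mem _)) _, ?_, fun q hq => ?_⟩
    · rw [Pi.smul_apply, Pi.smul_apply, Pi.sub_apply, Pi.sub_apply, Pi.algebraMap_apply,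
        Pi.algebraMap_apply, Algebra.algebraMap_self, RingHom.id_apply, sub_self, smul_zero]
    · rw [Pi.smul_apply, Pi.smul_apply, Pi.sub_apply, Pi.sub_apply, Pi.algebraMap_apply,
        Pi.algebraMap_apply, Algebra.algebraMap_self, RingHom.id_apply, ← hq r hr, smul_eq_mul,
        inv_mul_cancel₀ hne']
  choose! s hs h0 h2 using h1
  let U : Finset (I × ℕ) := univ.biUnion fun j => (range (D j)).image fun l' => (j, l')
  have hU : ∀ j l', l' < D j → (j, l') ∈ U := fun j l' h =>
    Finset.mem_biUnion.2 ⟨j, mem_univ j, Finset.mem_image.2 ⟨l', mem_range.2 h, rfl⟩⟩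
  refine ⟨∏ p ∈ U.filter (fun p => ¬ Eqv2 A i l p.1 p.2), s p,
    A.prod_mem fun p hp => hs p (mem_filter.1 hp).2, fun j l' hl' => ?_⟩
  rw [Finset.prod_apply, Finset.prod_apply]
  by_cases h : Eqv2 A i l j l'
  · rw [if_pos h]
    exact Finset.prod_eq_one fun p hp => h2 p (mem_filter.1 hp).2 (j, l') h
  · rw [if_neg h]
    exact Finset.prod_eq_zero (mem_filter.2 ⟨hU j l' hl', h⟩) (h0 (j, l') h)

include hA in
theorem Good.own_iff {i : I} {l x : ℕ} (hl : l < D i) (hx : x < D i) :
    Eqv2 A i l i x ↔ Own (fm i) (D i) l x := by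
  refine ⟨hA.sep i l x hl hx, ?_⟩
  rintro (rfl | ⟨h1, h2⟩)
  · exact fun _ _ => rfl
  · intro r hr
    have h3 := hA.sym i h1 r hr x hx
    rwa [show D i - 1 - x = l by omega] at h3

include hA in
/-- comparison of the second differences at two equivalent points -/
theorem Good.key [Fintype I] {i j : I} {l x x' : ℕ} (hl : l < D i) (hx : x < D i) (hx' : x' < D j)
    (hR : Eqv2 A i x j x') (c : ℕ → ℤ) (hc1 : ∀ y, y < D j → Eqv2 A i l j y → c y = 1)
    (hc0 : ∀ y, y < D j → ¬ Eqv2 A i l j y → c y = 0) :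
    tz (D i) (ow (fm i) (D i) l) x = tz (D j) c x' := by
  classical
  obtain ⟨b, hb, hb'⟩ := exists_idem2 (D := D) (A := A) i l
  have h1 := hR _ (hA.T b hb)
  have h2 : tp (D i) (b i) x = tp (D i) (fun y => ((ow (fm i) (D i) l y : ℤ) : K)) x := by
    refine tp_congr (fun y hy => ?_) hx
    rw [hb' i y hy]
    unfold ow
    by_cases h3 : Own (fm i) (D i) l y
    · rw [if_pos h3, if_pos ((hA.own_iff hl hy).2 h3), Int.cast_one]
    · rw [if_neg h3, if_neg fun h4 => h3 ((hA.own_iff hl hy).1 h4), Int.cast_zero]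
  have h3 : tp (D j) (b j) x' = tp (D j) (fun y => ((c y : ℤ) : K)) x' := by
    refine tp_congr (fun y hy => ?_) hx'
    rw [hb' j y hy]
    by_cases h4 : Eqv2 A i l j y
    · rw [if_pos h4, hc1 y hy h4, Int.cast_one]
    · rw [if_neg h4, hc0 y hy h4, Int.cast_zero]
  change tp (D i) (b i) x = tp (D j) (b j) x' at h1
  rw [h2, h3, tp_cast, tp_cast] at h1
  exact_mod_cast h1

include hA in
/-- neighbours of matched points are matched -/
theorem Good.step [Fintype I] {i j : I} {l l' x : ℕ} (hl : l < D i) (hl' : l' < D j)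
    (hR : Eqv2 A i l j l') (hx : x < D i) (hadj : x = l + 1 ∨ l = x + 1)
    (hown : ¬ Own (fm i) (D i) l x) :
    ∃ x', x' < D j ∧ (x' = l' + 1 ∨ l' = x' + 1) ∧ Eqv2 A i x j x' := by
  classical
  by_contra hcon
  push Not at hcon
  have hown' : ¬ Own (fm i) (D i) x l := by
    rintro (h | ⟨h1, h2⟩)
    · exact hown (Or.inl h.symm)
    · exact hown (Or.inr ⟨h1, by omega⟩)
  have h0 : ¬ Eqv2 A i x j l' := fun h =>
    hown ((hA.own_iff hl hx).1 (hR.trans h.symm))
  have h1 := hA.key hx hl hl' hR (fun y => if Eqv2 A i x j y then 1 else 0)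
    (fun y _ h => if_pos h) (fun y _ h => if_neg h)
  have h2 : tz (D j) (fun y => if Eqv2 A i x j y then 1 else 0) l' = 0 := by
    unfold tz
    beta_reduce
    rw [if_neg h0]
    have h3 : kz (D j) (l' + 1) * (if Eqv2 A i x j (l' + 1) then 1 else 0) = 0 := by
      rcases Nat.lt_or_ge (l' + 1) (D j) with h4 | h4
      · rw [if_neg (hcon (l' + 1) h4 (Or.inl rfl)), mul_zero]
      · rw [show l' + 1 = D j by omega, kz_top, zero_mul]
    rw [h3]
    by_cases h4 : l' = 0
    · rw [if_pos h4]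
      ring
    · rw [if_neg h4, if_neg (hcon (l' - 1) (by omega) (Or.inr (by omega)))]
      ring
  rw [h2] at h1
  have hnn : ∀ y, 0 ≤ ow (fm i) (D i) x y := by
    intro y
    unfold ow
    split_ifs <;> norm_num
  have hxx : ow (fm i) (D i) x x = 1 := by
    unfold ow
    exact if_pos (Or.inl rfl)
  have hxl : ow (fm i) (D i) x l = 0 := by
    unfold ow
    exact if_neg hown'
  unfold tz at h1
  rw [hxl] at h1
  rcases hadj with h3 | h3
  · subst h3
    rw [hxx] at h1
    have h4 := kz_pos hx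
    have h5 : 0 ≤ (if l = 0 then 0 else kz (D i) (l - 1) * ow (fm i) (D i) (l + 1) (l - 1)) := by
      split_ifs
      · exact le_rfl
      · exact mul_nonneg (kz_nonneg (by omega)) (hnn _)
    linarith
  · subst h3
    rw [if_neg (Nat.succ_ne_zero x), Nat.add_sub_cancel, hxx] at h1
    have h4 := kz_pos hx
    have h5 : 0 ≤ kz (D i) (x + 1 + 1) * ow (fm i) (D i) x (x + 1 + 1) :=
      mul_nonneg (kz_nonneg (by omega)) (hnn _)
    linarith

include hA in
/-- if one point is matched then all points are matched -/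
theorem Good.all [Fintype I] {i j : I} {l l' : ℕ} (hl : l < D i) (hl' : l' < D j)
    (hR : Eqv2 A i l j l') (x : ℕ) (hx : x < D i) : ∃ x', x' < D j ∧ Eqv2 A i x j x' := by
  have hstep : ∀ y z, y < D i → z < D i → (z = y + 1 ∨ y = z + 1) →
      (∃ x', x' < D j ∧ Eqv2 A i y j x') → ∃ x', x' < D j ∧ Eqv2 A i z j x' := by
    intro y z hy hz hadj ⟨x', hx', h1⟩
    by_cases hown : Own (fm i) (D i) y z
    · exact ⟨x', hx', (((hA.own_iff hy hz).2 hown).symm).trans h1⟩
    · obtain ⟨z', h2, -, h3⟩ := hA.step hy hx' h1 hz hadj hown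
      exact ⟨z', h2, h3⟩
  have hup : ∀ n, l + n < D i → ∃ x', x' < D j ∧ Eqv2 A i (l + n) j x' := by
    intro n
    induction n with
    | zero => exact fun _ => ⟨l', hl', hR⟩
    | succ n ih =>
      intro h
      exact hstep (l + n) (l + (n + 1)) (by omega) h (Or.inl (by omega)) (ih (by omega))
  have hdn : ∀ n, n ≤ l → ∃ x', x' < D j ∧ Eqv2 A i (l - n) j x' := by
    intro n
    induction n with
    | zero => exact fun _ => ⟨l', hl', hR⟩
    | succ n ih =>
      intro h
      exact hstep (l - n) (l - (n + 1)) (by omega) (by omega) (Or.inr (by omega)) (ih (by omega))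
  rcases Nat.le_total l x with h | h
  · have h1 := hup (x - l) (by omega)
    rwa [show l + (x - l) = x by omega] at h1
  · have h1 := hdn (l - x) (by omega)
    rwa [show l - (l - x) = x by omega] at h1

end Pool.Agent.Helper2.OP
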