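import Pool.Agent.Helper2.MU.Defs

/-!
# One place of maximally unipotent monodromy for several representations: definitions
-/

set_option autoImplicit false

namespace Pool.Agent.Helper2.OP

open Module Pool.Agent.V1141.SO Pool.Agent.Helper2.MU

variable {k : Type} [Field k] {Γ : Type} [Group Γ] {χ : Γ →* k} {I : Type}

/-- All `V i` have maximally unipotent monodromy at ONE place, where `M` has good reduction: there are
elements `γ` (a generator of the tame inertia group) and `φ` (a Frobenius element of the place) such
that `γ` acts on every `V i` by a unipotent operator with only one Jordan block, and trivially on `M`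
and by `χ`; the relation of the tame inertia group holds on every `V i` with some `q ≥ 2`; and `φ` is
pure of weight `m` on `M`. -/
def CommonMaximallyUnipotentPlace (P : I → FormPiece k χ) {M : Type} [AddCommGroup M] [Module k M]
    (τ : Representation k Γ M) (j : k →+* ℂ) (m : ℤ) : Prop :=
  ∃ (γ φ : Γ) (q : ℕ), 2 ≤ q ∧
    (∀ i, OneJordanBlock (P i) γ ∧ TameRelation (P i) γ φ q) ∧
    (χ γ = 1 ∧ τ γ = 1) ∧ IsPure j χ φ τ m

/-- The representations `V` and `V'` of `Γ` are not isomorphic up to a twist: no linear isomorphism
from `V` to `V'` is equivariant up to scalars. -/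
def NotIsomorphicUpToTwist (P P' : FormPiece k χ) : Prop :=
  ¬ ∃ W : P.V ≃ₗ[k] P'.V, ∀ g : Γ, ∃ c : k, ∀ v, W (P.ρ g v) = c • P'.ρ g (W v)

/-- The dimensions of `V` and `V'` are not `2` and `3`, and not `4` and `5`. -/
def NoExceptionalPair (P P' : FormPiece k χ) : Prop :=
  ¬ (finrank k P.V = 2 ∧ finrank k P'.V = 3) ∧ ¬ (finrank k P.V = 4 ∧ finrank k P'.V = 5)

end Pool.Agent.Helper2.OP
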