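import Pool.Agent.Helper2.OP.Match

/-!
# Families of operators given by functions

`L` is a Lie algebra of tuples of operators `X i` on spaces `T i` with principal triples.
-/

set_option autoImplicit false
set_option linter.unusedSectionVars false

namespace Pool.Agent.Helper2.OP

open Module Finset Pool.Agent.Y126.JB Pool.Agent.Y126.MU Pool.Agent.Helper2.MU
  Pool.Agent.Helper2.GLM

variable {K : Type*} [Field K] [CharZero K] {I : Type*} {T : I → Type*}
  [∀ i, AddCommGroup (T i)] [∀ i, Module K (T i)] (D : I → ℕ) (w : ∀ i, ℕ → T i)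
  (L : Submodule K (∀ i, End K (T i)))

/-- the diagonal elements -/
def FD : Submodule K (I → ℕ → K) where
  carrier := {a | ∃ X ∈ L, ∀ i l, l ≤ D i → X i (w i l) = a i l • w i l}
  zero_mem' := ⟨0, L.zero_mem, fun i l _ => by
    rw [Pi.zero_apply, LinearMap.zero_apply, Pi.zero_apply, Pi.zero_apply, zero_smul]⟩
  add_mem' := by
    rintro a b ⟨X, hX, h1⟩ ⟨Y, hY, h2⟩
    exact ⟨X + Y, L.add_mem hX hY, fun i l hl => by
      rw [Pi.add_apply, LinearMap.add_apply, h1 i l hl, h2 i l hl, Pi.add_apply, Pi.add_apply,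
        add_smul]⟩
  smul_mem' := by
    rintro c a ⟨X, hX, h1⟩
    exact ⟨c • X, L.smul_mem c hX, fun i l hl => by
      rw [Pi.smul_apply, LinearMap.smul_apply, h1 i l hl, Pi.smul_apply, Pi.smul_apply, smul_smul,
        smul_eq_mul]⟩

/-- the raising elements -/
def FR : Submodule K (I → ℕ → K) where
  carrier := {a | ∃ X ∈ L, ∀ i l, l ≤ D i → X i (w i l) = a i l • w i (l + 1)}
  zero_mem' := ⟨0, L.zero_mem, fun i l _ => by
    rw [Pi.zero_apply, LinearMap.zero_apply, Pi.zero_apply, Pi.zero_apply, zero_smul]⟩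
  add_mem' := by
    rintro a b ⟨X, hX, h1⟩ ⟨Y, hY, h2⟩
    exact ⟨X + Y, L.add_mem hX hY, fun i l hl => by
      rw [Pi.add_apply, LinearMap.add_apply, h1 i l hl, h2 i l hl, Pi.add_apply, Pi.add_apply,
        add_smul]⟩
  smul_mem' := by
    rintro c a ⟨X, hX, h1⟩
    exact ⟨c • X, L.smul_mem c hX, fun i l hl => by
      rw [Pi.smul_apply, LinearMap.smul_apply, h1 i l hl, Pi.smul_apply, Pi.smul_apply, smul_smul,
        smul_eq_mul]⟩

/-- the lowering elements -/
def FF : Submodule K (I → ℕ → K) where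
  carrier := {a | ∃ X ∈ L, (∀ i, X i (w i 0) = 0) ∧
    ∀ i l, l < D i → X i (w i (l + 1)) = (a i l * kap K (D i) l) • w i l}
  zero_mem' := ⟨0, L.zero_mem, fun i => rfl, fun i l _ => by
    rw [Pi.zero_apply, LinearMap.zero_apply, Pi.zero_apply, Pi.zero_apply, zero_mul, zero_smul]⟩
  add_mem' := by
    rintro a b ⟨X, hX, h0, h1⟩ ⟨Y, hY, h0', h2⟩
    exact ⟨X + Y, L.add_mem hX hY, fun i => by
      rw [Pi.add_apply, LinearMap.add_apply, h0, h0', add_zero], fun i l hl => by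
      rw [Pi.add_apply, LinearMap.add_apply, h1 i l hl, h2 i l hl, Pi.add_apply, Pi.add_apply,
        add_mul, add_smul]⟩
  smul_mem' := by
    rintro c a ⟨X, hX, h0, h1⟩
    exact ⟨c • X, L.smul_mem c hX, fun i => by
      rw [Pi.smul_apply, LinearMap.smul_apply, h0, smul_zero], fun i l hl => by
      rw [Pi.smul_apply, LinearMap.smul_apply, h1 i l hl, Pi.smul_apply, Pi.smul_apply, smul_smul,
        smul_eq_mul, mul_assoc]⟩

variable {D w L} {e h f : ∀ i, End K (T i)}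

theorem fd_congr {a b : I → ℕ → K} (ha : a ∈ FD D w L) (h : ∀ i l, l ≤ D i → a i l = b i l) :
    b ∈ FD D w L := by
  obtain ⟨X, hX, h1⟩ := ha
  exact ⟨X, hX, fun i l hl => by rw [← h i l hl]; exact h1 i l hl⟩

theorem ff_congr {a b : I → ℕ → K} (ha : a ∈ FF D w L) (h : ∀ i l, l < D i → a i l = b i l) :
    b ∈ FF D w L := by
  obtain ⟨X, hX, h0, h1⟩ := ha
  exact ⟨X, hX, h0, fun i l hl => by rw [← h i l hl]; exact h1 i l hl⟩

variable (hp : ∀ i, Prin (e i) (h i) (f i) (D i) (w i))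

include hp in
theorem fr_congr {a b : I → ℕ → K} (ha : a ∈ FR D w L) (h : ∀ i l, l < D i → a i l = b i l) :
    b ∈ FR D w L := by
  obtain ⟨X, hX, h1⟩ := ha
  refine ⟨X, hX, fun i l hl => ?_⟩
  rcases Nat.eq_or_lt_of_le hl with h2 | h2
  · rw [h1 i l hl, h2, (hp i).top, smul_zero, smul_zero]
  · rw [← h i l h2]
    exact h1 i l hl

include hp in
theorem frf_congr {a b : I → ℕ → K} (ha : a ∈ FR D w L ⊓ FF D w L)
    (h : ∀ i l, l < D i → a i l = b i l) : b ∈ FR D w L ⊓ FF D w L :=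
  ⟨fr_congr hp ha.1 h, ff_congr ha.2 h⟩

variable (hbr : ∀ Y ∈ L, ∀ Z ∈ L, Y * Z - Z * Y ∈ L)

theorem br_apply (Y Z : ∀ i, End K (T i)) (i : I) (v : T i) :
    (Y * Z - Z * Y) i v = Y i (Z i v) - Z i (Y i v) := rfl

include hp hbr in
theorem fd_rf {a b : I → ℕ → K} (ha : a ∈ FD D w L) (hb : b ∈ FR D w L ⊓ FF D w L) :
    (fun i l => (a i (l + 1) - a i l) * b i l) ∈ FR D w L ⊓ FF D w L := by
  obtain ⟨X, hX, h1⟩ := ha
  obtain ⟨⟨Y, hY, h2⟩, Z, hZ, h3, h4⟩ := hb
  refine ⟨⟨X * Y - Y * X, hbr X hX Y hY, fun i l hl => ?_⟩, Z * X - X * Z, hbr Z hZ X hX,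
    fun i => ?_, fun i l hl => ?_⟩
  · rw [br_apply, h2 i l hl, h1 i l hl, map_smul, map_smul, h2 i l hl]
    rcases Nat.eq_or_lt_of_le hl with h5 | h5
    · rw [h5, (hp i).top, map_zero]
      simp only [smul_zero, sub_zero]
    · rw [h1 i (l + 1) h5]
      module
  · rw [br_apply, h1 i 0 (Nat.zero_le _), map_smul, h3, map_zero, smul_zero, sub_zero]
  · rw [br_apply, h1 i (l + 1) hl, map_smul, h4 i l hl, map_smul, h1 i l hl.le]
    module

include hp hbr in
theorem fr_ff {b c : I → ℕ → K} (hb : b ∈ FR D w L) (hc : c ∈ FF D w L) :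
    (fun i l => (if l = 0 then 0 else b i (l - 1) * c i (l - 1) * kap K (D i) (l - 1)) -
      b i l * c i l * kap K (D i) l) ∈ FD D w L := by
  obtain ⟨X, hX, h1⟩ := hb
  obtain ⟨Y, hY, h2, h3⟩ := hc
  refine ⟨X * Y - Y * X, hbr X hX Y hY, fun i l hl => ?_⟩
  have h4 : Y i (X i (w i l)) = (b i l * c i l * kap K (D i) l) • w i l := by
    rcases Nat.eq_or_lt_of_le hl with h5 | h5
    · rw [h1 i l hl, h5, (hp i).top, smul_zero, map_zero, kap_top, mul_zero, zero_smul]
    · rw [h1 i l hl, map_smul, h3 i l h5, smul_smul]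
      congr 1
      ring
  rw [br_apply, h4, sub_smul]
  congr 1
  cases l with
  | zero => rw [h2, map_zero, if_pos rfl, zero_smul]
  | succ l =>
    rw [h3 i l (by omega), map_smul, h1 i l (by omega), if_neg (Nat.succ_ne_zero l), smul_smul,
      Nat.add_sub_cancel]
    congr 1
    ring

include hp in
theorem one_frf (heL : e ∈ L) (hfL : f ∈ L) : (fun _ _ => (1 : K)) ∈ FR D w L ⊓ FF D w L :=
  ⟨⟨e, heL, fun i l _ => by rw [(hp i).e_w, one_smul]⟩, f, hfL, fun i => (hp i).f_zero,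
    fun i l _ => by
    rw [(hp i).f_w, one_mul]
    rfl⟩

variable (D w L) in
/-- the multipliers -/
def FA : Subalgebra K (I → ℕ → K) where
  carrier := {r | ∀ b ∈ FR D w L ⊓ FF D w L, r * b ∈ FR D w L ⊓ FF D w L}
  mul_mem' := fun {a a'} ha ha' b hb => by
    rw [mul_assoc]
    exact ha _ (ha' _ hb)
  add_mem' := fun {a a'} ha ha' b hb => by
    rw [add_mul]
    exact Submodule.add_mem _ (ha b hb) (ha' b hb)
  algebraMap_mem' := fun c b hb => by
    have h1 : algebraMap K (I → ℕ → K) c * b = c • b := (Algebra.smul_def c b).symm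
    rw [h1]
    exact Submodule.smul_mem _ c hb

include hp in
theorem FA_congr : ∀ r ∈ FA D w L, ∀ r' : I → ℕ → K, (∀ i l, l < D i → r i l = r' i l) →
    r' ∈ FA D w L := by
  intro r hr r' h b hb
  refine frf_congr hp (hr b hb) fun i l hl => ?_
  rw [Pi.mul_apply, Pi.mul_apply, Pi.mul_apply, Pi.mul_apply, h i l hl]

include hp hbr in
theorem diff_FA {a : I → ℕ → K} (ha : a ∈ FD D w L) :
    (fun i l => a i (l + 1) - a i l) ∈ FA D w L :=
  fun _ hb => fd_rf hp hbr ha hb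

include hp in
theorem FA_rf (heL : e ∈ L) (hfL : f ∈ L) {r : I → ℕ → K} (hr : r ∈ FA D w L) :
    r ∈ FR D w L ⊓ FF D w L := by
  have h1 := hr _ (one_frf hp heL hfL)
  refine frf_congr hp h1 fun i l _ => ?_
  rw [Pi.mul_apply, Pi.mul_apply, mul_one]

include hp hbr in
theorem FA_tp (heL : e ∈ L) (hfL : f ∈ L) : ∀ r ∈ FA D w L,
    (fun i => tp (D i) (r i)) ∈ FA D w L := by
  intro r hr
  have h1 := fr_ff hp hbr (FA_rf hp heL hfL hr).1 (one_frf hp heL hfL).2
  have h2 := (FA D w L).smul_mem (diff_FA hp hbr h1) (-1 : K)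
  refine FA_congr hp _ h2 _ fun i l _ => ?_
  rw [Pi.smul_apply, Pi.smul_apply, smul_eq_mul]
  unfold tp
  rw [if_neg (Nat.succ_ne_zero l), Nat.add_sub_cancel]
  by_cases hl : l = 0
  · rw [if_pos hl, if_pos hl]
    ring
  · rw [if_neg hl, if_neg hl]
    ring

/-- The raising elements which are skew for a form are symmetric. -/
theorem fa_sym {i : I} {ω : T i →ₗ[K] T i →ₗ[K] K} (hp : ∀ i, Prin (e i) (h i) (f i) (D i) (w i))
    (heL : e ∈ L) (hfL : f ∈ L) (hhL : h ∈ L) (hnd : ∀ u, (∀ v, ω u v = 0) → u = 0)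
    (hsk : ∀ Y ∈ L, ∀ u v, ω (Y i u) v + ω u (Y i v) = 0) {r : I → ℕ → K}
    (hr : r ∈ FA D w L) {l : ℕ} (hl : l < D i) : r i (D i - 1 - l) = r i l := by
  obtain ⟨X, hX, h1⟩ := (FA_rf hp heL hfL hr).1
  have h2 := hsk X hX (w i l) (w i (D i - 1 - l))
  have h3 := hsk e heL (w i l) (w i (D i - 1 - l))
  rw [h1 i l hl.le, h1 i (D i - 1 - l) (by omega), map_smul, map_smul, LinearMap.smul_apply,
    smul_eq_mul, smul_eq_mul] at h2
  rw [(hp i).e_w, (hp i).e_w] at h3
  have h4 := (hp i).pair' (hsk e heL) (hsk h hhL) hnd (i := l + 1) (by omega)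
  rw [show D i - (l + 1) = D i - 1 - l by omega] at h4
  have h5 : (r i (D i - 1 - l) - r i l) * ω (w i (l + 1)) (w i (D i - 1 - l)) = 0 := by
    linear_combination r i (D i - 1 - l) * h3 - h2
  exact sub_eq_zero.1 ((mul_eq_zero.1 h5).resolve_right h4)

end Pool.Agent.Helper2.OP
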