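import Pool.Agent.Helper2.OP.Supp
import Pool.Graph.R_pool_sql_team_seeded_5cf16337.K3h45.MU.Alg

/-!
# Lie algebras of tuples of skew operators
-/

set_option autoImplicit false
set_option linter.unusedSectionVars false

namespace Pool.Agent.Helper2.OP

open Module Finset Pool.Agent.Y126.JB Pool.Agent.Y126.MU Pool.Agent.Helper2.MU
  Pool.Agent.Helper2.GLM Pool.Agent.Y130 Pool.Agent.V1141.OF Pool.Agent.H204R3.SP

section one

variable {K : Type} [Field K] [CharZero K] [IsAlgClosed K] {T : Type} [AddCommGroup T]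
  [Module K T] [FiniteDimensional K T] {e h f : End K T} {D : ℕ} {w : ℕ → T}

/-- The whole Lie algebra of the form, from the principal triple. -/
theorem full_triple (hp : Prin e h f D w) (hdim : finrank K T = D + 1) {s : ℤ}
    (hs : s = 1 ∨ s = -1) {ω : T →ₗ[K] T →ₗ[K] K} (hsym : ∀ u v, ω u v = (s : K) * ω v u)
    (hnd : ∀ u, (∀ v, ω u v = 0) → u = 0) {L : Submodule K (End K T)}
    (hbr : ∀ Y ∈ L, ∀ Z ∈ L, Y * Z - Z * Y ∈ L)
    (hsk : ∀ Y ∈ L, ∀ u v, ω (Y u) v + ω u (Y v) = 0) (heL : e ∈ L) (hhL : h ∈ L) (hfL : f ∈ L)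
    {Γ : Type} [Group Γ] (ρ : Representation K Γ T)
    (hconj : ∀ g, ∀ X ∈ L, ρ g * X * ρ g⁻¹ ∈ L)
    (hnp : (s = 1 ∧ finrank K T ≤ 3) ∨ finrank K T ≤ 2 ∨
      ∃ g : Γ, ∀ c a : K, (ρ g).charpoly ≠
        ∏ l ∈ range (finrank K T), (Polynomial.X - Polynomial.C (c * a ^ l)))
    (h7 : s = 1 → finrank K T ≠ 7) {a c : ℕ} (ha : a ≤ D) (hc : c ≤ D) :
    TT ω (s : K) (w a) (w c) ∈ L := by
  have hes := hsk e heL
  have hhs := hsk h hhL
  have hfs := hsk f hfL
  have hpair := hp.pair hes hhs hnd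
  have hpar : (s : K) = (-1) ^ D := by
    have h1 := om_pow hes D (w 0) (w 0)
    rw [hp.pow, zero_add, hsym (w D) (w 0)] at h1
    exact mul_right_cancel₀ hpair h1
  have hne : 0 < D → ((s = 1 ∧ finrank K T ≤ 3) ∨ finrank K T ≤ 2) ∨
      ¬ L ≤ Submodule.span K {e, h, f} := by
    intro hD
    rcases hnp with h1 | h1 | ⟨g, hg⟩
    · exact Or.inl (Or.inl h1)
    · exact Or.inl (Or.inr h1)
    · right
      intro hle
      have hge : Submodule.span K {e, h, f} ≤ L := by
        rw [Submodule.span_le]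
        intro X hX
        rcases hX with rfl | rfl | rfl
        · exact heL
        · exact hhL
        · exact hfL
      obtain ⟨x', y', c, v', h1, h2, h3⟩ := hp.exists_nilp hD (g := ρ g) (g' := ρ g⁻¹)
        (by rw [← map_mul, inv_mul_cancel, map_one]) (fun X hX => hle (hconj g X (hge hX)))
      obtain ⟨a, ha⟩ := charpoly_geom h1 h2 hdim h3
      rw [hdim] at hg
      exact hg a c ha
  rcases hs with rfl | rfl
  · have hDe : Even D := by
      by_contra hodd
      rw [Nat.not_even_iff_odd] at hodd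
      rw [hodd.neg_one_pow, Int.cast_one] at hpar
      have h2 : (2 : K) = 0 := by linear_combination hpar
      exact two_ne_zero h2
    obtain ⟨D', hD'⟩ := hDe
    have hDe : Even D := ⟨D', hD'⟩
    rw [Int.cast_one] at hsym ⊢
    refine full_sym hp hes hhs hnd hbr hsk (fun u v => by rw [hsym, one_mul]) hDe ?_ heL hhL hfL
      ?_ ha hc
    · have h3 := h7 rfl
      omega
    · rcases Nat.eq_zero_or_pos D with h0 | h0
      · left
        omega
      · rcases hne h0 with (h1 | h1) | h1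
        · left
          omega
        · left
          omega
        · exact Or.inr h1
  · have hDo : Odd D := by
      by_contra heven
      rw [Nat.not_odd_iff_even] at heven
      rw [heven.neg_one_pow, Int.cast_neg, Int.cast_one] at hpar
      have h2 : (2 : K) = 0 := by linear_combination -hpar
      exact two_ne_zero h2
    obtain ⟨D', hD'⟩ := hDo
    have hD : 0 < D := by omega
    have halt : ∀ v, ω v v = 0 := by
      intro v
      have h1 := hsym v v
      rw [Int.cast_neg, Int.cast_one] at h1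
      have h2 : (2 : K) * ω v v = 0 := by linear_combination h1
      exact (mul_eq_zero.1 h2).resolve_left two_ne_zero
    have htop : e ^ D ∈ L := by
      rcases hne hD with (h1 | h1) | h1
      · exact absurd h1.1 (by norm_num)
      · rw [show D = 1 by omega, pow_one]
        exact heL
      · obtain ⟨k', hk2, hkD, hkL⟩ := hp.exists_pow hes hhs hnd hbr hsk hD heL hhL h1
        exact hp.top_of_pow hes hhs hnd halt hbr hsk hfL hk2 hkD hkL
    have h1 := hp.full_of_top hes hhs hfs hnd halt hbr hfL htop hsk (w a) (w c)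
    have h2 : TT ω ((-1 : ℤ) : K) (w a) (w c) = SS ω (w a) (w c) := by
      ext z
      rw [TT_apply, SS_apply, Int.cast_neg, Int.cast_one]
      module
    rw [h2]
    exact h1

/-- The diagonal operators of the form. -/
theorem TT_epp (hp : Prin e h f D w) {s : ℤ} (hs : s = 1 ∨ s = -1)
    {ω : T →ₗ[K] T →ₗ[K] K} (hsym : ∀ u v, ω u v = (s : K) * ω v u)
    (hhs : ∀ u v, ω (h u) v + ω u (h v) = 0) {m : ℕ} (hm : 2 * m < D) {l : ℕ} :
    TT ω (s : K) (w m) (w (D - m)) (w l) = (ω (w m) (w (D - m)) * epp K D m l) • w l := by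
  have hss : (s : K) * s = 1 := by
    rcases hs with rfl | rfl <;> norm_num
  rw [TT_apply]
  unfold epp
  by_cases h1 : l + m = D
  · rw [if_pos h1, if_neg (show ¬ l = m by omega), hp.orth hhs (i := D - m) (j := l) (by omega),
      show D - m = l by omega]
    module
  · rw [if_neg h1, hp.orth hhs (i := m) (j := l) (by omega)]
    by_cases h2 : l = m
    · rw [if_pos h2, h2, hsym (w (D - m)) (w m), ← mul_assoc, hss]
      module
    · rw [if_neg h2, hp.orth hhs (i := D - m) (j := l) (by omega)]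
      module

end one

variable {K : Type} [Field K] [CharZero K] [IsAlgClosed K] {I : Type} [Fintype I] {T : I → Type}
  [∀ i, AddCommGroup (T i)] [∀ i, Module K (T i)] [∀ i, FiniteDimensional K (T i)]
  {D : I → ℕ} {w : ∀ i, ℕ → T i}
  {L : Submodule K (∀ i, End K (T i))} {e h f : ∀ i, End K (T i)}
  (hp : ∀ i, Prin (e i) (h i) (f i) (D i) (w i))
  (hbr : ∀ Y ∈ L, ∀ Z ∈ L, Y * Z - Z * Y ∈ L)

include hp hbr in
/-- The function algebra in the case of forms. -/
theorem good_forms (hdim : ∀ i, finrank K (T i) = D i + 1) (heL : e ∈ L) (hhL : h ∈ L)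
    (hfL : f ∈ L) {s : I → ℤ} (hs : ∀ i, s i = 1 ∨ s i = -1)
    {ω : ∀ i, T i →ₗ[K] T i →ₗ[K] K} (hsym : ∀ i u v, ω i u v = (s i : K) * ω i v u)
    (hnd : ∀ i u, (∀ v, ω i u v = 0) → u = 0)
    (hsk : ∀ Y ∈ L, ∀ i u v, ω i (Y i u) v + ω i u (Y i v) = 0)
    (hTT : ∀ i a, 2 * a < D i → ∃ X ∈ L, X i = TT (ω i) (s i : K) (w i a) (w i (D i - a))) :
    Good D (fun _ => True) (FA D w L) where
  T := FA_tp hp hbr heL hfL
  congr := FA_congr hp
  sym := fun i _ r hr l hl => fa_sym hp heL hfL hhL (hnd i) (fun Y hY => hsk Y hY i) hr hl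
  sep := by
    intro i l l' hl hl' hE
    -- the functions `epp`
    have h1 : ∀ m, 2 * m < D i → ∃ X ∈ L, ∀ l, l ≤ D i → X i (w i l) = epp K (D i) m l • w i l := by
      intro m hm
      obtain ⟨X, hX, hXi⟩ := hTT i m hm
      have h2 := (hp i).pair' (hsk e heL i) (hsk h hhL i) (hnd i) (i := m) (by omega)
      refine ⟨(ω i (w i m) (w i (D i - m)))⁻¹ • X, L.smul_mem _ hX, fun l hl => ?_⟩
      rw [Pi.smul_apply, LinearMap.smul_apply, hXi,
        TT_epp (hp i) (hs i) (hsym i) (hsk h hhL i) hm, smul_smul, ← mul_assoc,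
        inv_mul_cancel₀ h2, one_mul]
    have h2 : ∀ m, 2 * m < D i → ∃ X ∈ L, ∃ a : ℕ → K, (∀ l, l ≤ D i → X i (w i l) = a l • w i l) ∧
        ∀ l, l < D i → a (l + 1) - a l = del K (D i) m l := by
      intro m
      induction m with
      | zero =>
        intro hm
        obtain ⟨X, hX, hXi⟩ := h1 0 hm
        exact ⟨X, hX, _, hXi, fun l hl => diff_epp0 hl⟩
      | succ m ih =>
        intro hm
        obtain ⟨X, hX, a, ha, ha'⟩ := ih (by omega)
        obtain ⟨Y, hY, hYi⟩ := h1 (m + 1) hm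
        refine ⟨X + Y, L.add_mem hX hY, fun l => a l + epp K (D i) (m + 1) l, fun l hl => ?_,
          fun l hl => ?_⟩
        · rw [Pi.add_apply, LinearMap.add_apply, ha l hl, hYi l hl, add_smul]
        · have h3 := diff_epps (K := K) (D i) m l
          have h4 := ha' l hl
          linear_combination h3 + h4
    obtain ⟨m, hm, hml⟩ : ∃ m, 2 * m < D i ∧ (m = l ∨ m + l + 1 = D i) := by
      rcases Nat.lt_or_ge (2 * l) (D i) with h3 | h3
      · exact ⟨l, h3, Or.inl rfl⟩
      · exact ⟨D i - 1 - l, by omega, Or.inr (by omega)⟩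
    obtain ⟨X, hX, a, ha, ha'⟩ := h2 m hm
    obtain ⟨b, hb, hb'⟩ := exists_diag hp hbr hdim hhL hX ha
    have h3 := hE _ (diff_FA hp hbr hb)
    change b i (l + 1) - b i l = b i (l' + 1) - b i l' at h3
    rw [hb' (l + 1) (by omega), hb' l (by omega), hb' (l' + 1) (by omega), hb' l' (by omega),
      ha' l hl, ha' l' hl'] at h3
    by_contra hcon
    unfold Own at hcon
    push Not at hcon
    have h4 : del K (D i) m l' = 0 := by
      unfold del
      rw [if_neg, if_neg, add_zero]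
      · rcases hml with h5 | h5
        · have h6 := hcon.2 trivial
          omega
        · have h6 := hcon.1
          omega
      · rcases hml with h5 | h5
        · have h6 := hcon.1
          omega
        · have h6 := hcon.2 trivial
          omega
    rw [h4] at h3
    unfold del at h3
    rcases hml with h5 | h5
    · rw [if_pos h5.symm] at h3
      by_cases h6 : l + m + 1 = D i
      · rw [if_pos h6] at h3
        norm_num at h3
      · rw [if_neg h6] at h3
        norm_num at h3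
    · rw [if_pos (show l + m + 1 = D i by omega)] at h3
      by_cases h6 : l = m
      · rw [if_pos h6] at h3
        norm_num at h3
      · rw [if_neg h6] at h3
        norm_num at h3

include hp hbr in
/-- **The principal triples supported at one place.** -/
theorem triples_mem [DecidableEq I] (hdim : ∀ i, finrank K (T i) = D i + 1) (heL : e ∈ L)
    (hhL : h ∈ L) (hfL : f ∈ L) {s : I → ℤ} (hs : ∀ i, s i = 1 ∨ s i = -1)
    {ω : ∀ i, T i →ₗ[K] T i →ₗ[K] K} (hsym : ∀ i u v, ω i u v = (s i : K) * ω i v u)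
    (hnd : ∀ i u, (∀ v, ω i u v = 0) → u = 0)
    (hsk : ∀ Y ∈ L, ∀ i u v, ω i (Y i u) v + ω i u (Y i v) = 0)
    {Γ : Type} [Group Γ] (ρ : ∀ i, Representation K Γ (T i))
    (hconj : ∀ g, ∀ X ∈ L, (fun i => ρ i g * X i * ρ i g⁻¹) ∈ L)
    (hnp : ∀ i, (s i = 1 ∧ finrank K (T i) ≤ 3) ∨ finrank K (T i) ≤ 2 ∨
      ∃ g : Γ, ∀ c a : K, (ρ i g).charpoly ≠
        ∏ l ∈ range (finrank K (T i)), (Polynomial.X - Polynomial.C (c * a ^ l)))
    (h7 : ∀ i, s i = 1 → finrank K (T i) ≠ 7)
    (hpair : ∀ i j, ¬ (finrank K (T i) = 2 ∧ finrank K (T j) = 3) ∧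
      ¬ (finrank K (T i) = 4 ∧ finrank K (T j) = 5))
    (hsim : ∀ i j, i ≠ j → ∀ W : T i ≃ₗ[K] T j, ¬ ∀ g : Γ, ∃ c : K, ∀ v,
      W (ρ i g v) = c • ρ j g (W v)) (i : I) :
    Pi.single i (e i) ∈ L ∧ Pi.single i (h i) ∈ L ∧ Pi.single i (f i) ∈ L := by
  have hD6 : ∀ i, D i ≠ 6 := by
    intro i h6
    rcases hs i with h1 | h1
    · apply h7 i h1
      rw [hdim, h6]
    · have h2 := (hp i).pair (hsk e heL i) (hsk h hhL i) (hnd i)
      have h3 := om_pow (hsk e heL i) (D i) (w i 0) (w i 0)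
      rw [(hp i).pow, zero_add, hsym i (w i (D i)) (w i 0), h1, h6] at h3
      rw [h6] at h2
      apply h2
      have h4 : (2 : K) * ω i (w i 0) (w i 6) = 0 := by
        push_cast at h3
        linear_combination -h3
      exact (mul_eq_zero.1 h4).resolve_left two_ne_zero
  have hTT : ∀ i a, 2 * a < D i →
      ∃ X ∈ L, X i = TT (ω i) (s i : K) (w i a) (w i (D i - a)) := by
    intro i a ha
    have h1 := full_triple (L := L.map (LinearMap.proj i)) (hp i) (hdim i) (hs i) (hsym i) (hnd i)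
      (by
        rintro _ ⟨Y, hY, rfl⟩ _ ⟨Z, hZ, rfl⟩
        exact ⟨_, hbr Y hY Z hZ, rfl⟩)
      (by
        rintro _ ⟨Y, hY, rfl⟩
        exact hsk Y hY i)
      ⟨e, heL, rfl⟩ ⟨h, hhL, rfl⟩ ⟨f, hfL, rfl⟩ (ρ i)
      (by
        rintro g _ ⟨Y, hY, rfl⟩
        exact ⟨_, hconj g Y hY, rfl⟩)
      (hnp i) (h7 i) (a := a) (c := D i - a) (by omega) (by omega)
    obtain ⟨X, hX, hXi⟩ := h1
    exact ⟨X, hX, hXi⟩
  have hA := good_forms hp hbr hdim heL hhL hfL hs hsym hnd hsk hTT
  have hno : ∀ j, j ≠ i → ∀ l l', l < D i → l' < D j → ¬ Eqv2 (FA D w L) i l j l' := by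
    intro j hj l l' hl hl' hE
    have hpair' : ∀ i j, ¬ (D i = 1 ∧ D j = 2) ∧ ¬ (D i = 3 ∧ D j = 4) := by
      intro i j
      have h2 := hpair i j
      rw [hdim, hdim] at h2
      omega
    obtain ⟨hDij, -, h1 | h1⟩ := hA.matched (fun i hi => absurd trivial hi)
      (fun i _ => hD6 i) (fun i j _ _ => hpair' i j) hl hl' hE
    · obtain ⟨W, hW⟩ := exists_W hp hdim hDij
      refine hsim i j (Ne.symm hj) W fun g => ?_
      exact sim_of_inter hp ρ hconj hdim heL hhL hDij W hW
        (inter hp hbr hdim heL hhL hfL h1 hDij W hW) g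
    · exact h1.1 trivial
  obtain ⟨r, hr, hr1, hr0⟩ := exists_chain_idem (D := D) hno
  obtain ⟨h1, h2⟩ := single_mem hp heL hfL hr hr1 hr0
  refine ⟨h1, ?_, h2⟩
  have h3 := hbr _ h1 _ h2
  have h4 : (Pi.single i (e i) * Pi.single i (f i) - Pi.single i (f i) * Pi.single i (e i) :
      ∀ i, End K (T i)) = Pi.single i (h i) := by
    rw [← Pi.single_mul, ← Pi.single_mul, ← Pi.single_sub, (hp i).ef]
    rfl
  rwa [h4] at h3

end Pool.Agent.Helper2.OP
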