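import Pool.Agent.Helper2.MU.Block

/-!
# The Lie algebra of tuples of operators which kill the Tate classes
-/

set_option autoImplicit false
set_option linter.unusedSectionVars false

namespace Pool.Agent.Helper2.OP

open Module Finset Pool.Agent.Y126.JB Pool.Agent.Y126.MU Pool.Agent.V1141.OF
  Pool.Agent.TH118.SG Pool.Agent.Y130 Pool.Agent.TH125.Gal Pool.Agent.Helper2.MU
open Pool.Agent.H204R3.CM Pool.Agent.H204R3.SP Pool.Agent.H204R3.GP
open Pool.Agent.Y137.MV (IsEqv kills_zero kills_add kills_smul kills_conj eqv_pull dd_kills)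

theorem lg_comm' {k : Type} [Field k] {V V' : Type} [AddCommGroup V] [Module k V]
    [AddCommGroup V'] [Module k V'] (φ : V →ₗ[k] V') (X : End k V) (Y : End k V')
    (h : ∀ x, Y (φ x) = φ (X x)) (n : ℕ) (x : V) : lg k Y n (φ x) = φ (lg k X n x) := by
  have h1 : ∀ (i : ℕ) (x : V), (Y ^ i) (φ x) = φ ((X ^ i) x) := by
    intro i
    induction i with
    | zero => exact fun _ => rfl
    | succ i ih =>
      intro x
      rw [pow_succ, pow_succ, Module.End.mul_apply, Module.End.mul_apply, h, ih]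
  rw [lg, Al, lg, Al, LinearMap.sum_apply, LinearMap.sum_apply, map_sum]
  refine Finset.sum_congr rfl fun i _ => ?_
  rw [LinearMap.smul_apply, LinearMap.smul_apply, map_smul, h1]

variable {k : Type} [Field k] [CharZero k] [IsAlgClosed k] {I : Type} [Fintype I]
  [DecidableEq I] {V : I → Type} [∀ i, AddCommGroup (V i)] [∀ i, Module k (V i)]
  [∀ i, FiniteDimensional k (V i)] {M : Type} [AddCommGroup M] [Module k M]
  [FiniteDimensional k M] {Γ : Type} [Group Γ] (ρ : ∀ i, Representation k Γ (V i))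
  (τ : Representation k Γ M) (χ : Γ →* k) (wt : I → ℕ) (ω : ∀ i, V i →ₗ[k] V i →ₗ[k] k)
  (j : k →+* ℂ) (m : ℤ)

/-- the block diagonal operator -/
def bd (X : ∀ i, End k (V i)) : End k (∀ i, V i) :=
  LinearMap.pi fun i => (X i).comp (LinearMap.proj i)

theorem bd_apply (X : ∀ i, End k (V i)) (v : ∀ i, V i) (i : I) : bd X v i = X i (v i) := rfl

theorem bd_mul (X Y : ∀ i, End k (V i)) : bd (X * Y) = bd X * bd Y := rfl

theorem bd_sub (X Y : ∀ i, End k (V i)) : bd (X - Y) = bd X - bd Y := rfl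

theorem bd_add (X Y : ∀ i, End k (V i)) : bd (X + Y) = bd X + bd Y := rfl

theorem bd_smul (c : k) (X : ∀ i, End k (V i)) : bd (c • X) = c • bd X := rfl

theorem bd_zero : bd (0 : ∀ i, End k (V i)) = 0 := rfl

theorem bd_single (i : I) (X : End k (V i)) : bd (Pi.single i X) = io k i X := by
  refine LinearMap.ext fun v => funext fun i' => ?_
  rw [bd_apply, io_apply, LinearMap.single_apply]
  by_cases h : i' = i
  · subst h
    rw [Pi.single_eq_same, Pi.single_eq_same]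
  · rw [Pi.single_eq_of_ne h, Pi.single_eq_of_ne h, LinearMap.zero_apply]

/-- The tuples of skew operators which kill all scalar components of equivariant maps. -/
def lieT : Submodule k (∀ i, End k (V i)) where
  carrier := {X | (∀ i u w, ω i (X i u) w + ω i u (X i w) = 0) ∧
    ∀ (κ : Type) [Fintype κ] [DecidableEq κ] (φ : MultilinearMap k (fun _ : κ => ∀ i, V i) M)
      (l : M →ₗ[k] k), IsEqv (sumRep ρ) τ φ → Kills (bd X) (l.compMultilinearMap φ)}
  zero_mem' := ⟨fun i u w => by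
      rw [Pi.zero_apply, LinearMap.zero_apply, LinearMap.zero_apply, map_zero, map_zero,
        LinearMap.zero_apply, add_zero], fun κ _ _ φ l _ => by rw [bd_zero]; exact kills_zero⟩
  add_mem' := fun {X Y} hX hY => ⟨fun i u w => by
      rw [Pi.add_apply, LinearMap.add_apply, LinearMap.add_apply, map_add, map_add,
        LinearMap.add_apply]
      linear_combination hX.1 i u w + hY.1 i u w,
    fun κ _ _ φ l h => by
      rw [bd_add]
      exact kills_add (hX.2 κ φ l h) (hY.2 κ φ l h)⟩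
  smul_mem' := fun c X hX => ⟨fun i u w => by
      rw [Pi.smul_apply, LinearMap.smul_apply, LinearMap.smul_apply, map_smul, map_smul,
        LinearMap.smul_apply, smul_eq_mul, smul_eq_mul]
      linear_combination c * hX.1 i u w,
    fun κ _ _ φ l h => by
      rw [bd_smul]
      exact kills_smul c (hX.2 κ φ l h)⟩

theorem lieT_bracket {X Y : ∀ i, End k (V i)} (hX : X ∈ lieT ρ τ ω)
    (hY : Y ∈ lieT ρ τ ω) : X * Y - Y * X ∈ lieT ρ τ ω := by
  refine ⟨fun i u w => ?_, fun κ _ _ φ l h => ?_⟩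
  · change ω i (X i (Y i u) - Y i (X i u)) w + ω i u (X i (Y i w) - Y i (X i w)) = 0
    rw [map_sub, map_sub, LinearMap.sub_apply]
    linear_combination hX.1 i (Y i u) w - hY.1 i (X i u) w + hX.1 i u (Y i w) - hY.1 i u (X i w)
  · rw [bd_sub, bd_mul, bd_mul]
    exact kills_bracket (hX.2 κ φ l h) (hY.2 κ φ l h)

theorem lieT_conj {c : I → Γ → k}
    (hω : ∀ i s u v, ω i (ρ i s u) (ρ i s v) = c i s * ω i u v)
    (s : Γ) {X : ∀ i, End k (V i)} (hX : X ∈ lieT ρ τ ω) :
    (fun i => ρ i s * X i * ρ i s⁻¹) ∈ lieT ρ τ ω := by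
  have hinv : ∀ i v, ρ i s (ρ i s⁻¹ v) = v := fun i v => by
    rw [← Module.End.mul_apply, ← map_mul, mul_inv_cancel, map_one, Module.End.one_apply]
  refine ⟨fun i u w => ?_, fun κ _ _ φ l h => ?_⟩
  · have h1 := hX.1 i (ρ i s⁻¹ u) (ρ i s⁻¹ w)
    have h2 := hω i s (X i (ρ i s⁻¹ u)) (ρ i s⁻¹ w)
    have h3 := hω i s (ρ i s⁻¹ u) (X i (ρ i s⁻¹ w))
    rw [hinv] at h2 h3
    change ω i (ρ i s (X i (ρ i s⁻¹ u))) w + ω i u (ρ i s (X i (ρ i s⁻¹ w))) = 0
    rw [h2, h3, ← mul_add, h1, mul_zero]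
  · have h0 : bd (fun i => ρ i s * X i * ρ i s⁻¹) = sumRep ρ s * bd X * sumRep ρ s⁻¹ := rfl
    rw [h0]
    refine kills_conj (sumRep ρ) s ?_
    have h1 := hX.2 κ _ (l.comp (τ s)) (eqv_pull (sumRep ρ) τ h s)
    have h2 : (l.compMultilinearMap φ).compLinearMap (fun _ => sumRep ρ s) =
        (l.comp (τ s)).compMultilinearMap ((τ s⁻¹).compMultilinearMap
          (φ.compLinearMap (fun _ => sumRep ρ s))) := by
      refine MultilinearMap.ext fun v => ?_
      change l (φ (fun j => sumRep ρ s (v j))) = l (τ s (τ s⁻¹ (φ (fun j => sumRep ρ s (v j)))))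
      rw [← Module.End.mul_apply, ← map_mul, mul_inv_cancel, map_one, Module.End.one_apply]
    rw [h2]
    exact h1

theorem lieT_opp (X Y : ∀ i, End k (V i)) (c : k)
    (hX : X ∈ lieT ρ τ ω) (hY : ∀ i u w, ω i (Y i u) w + ω i u (Y i w) = 0)
    (hH : X * Y - Y * X ∈ lieT ρ τ ω)
    (hHY : (X * Y - Y * X) * Y - Y * (X * Y - Y * X) = c • Y) (hc : c ≠ 0) :
    Y ∈ lieT ρ τ ω := by
  refine ⟨hY, fun κ _ _ φ l h => ?_⟩
  have h1 := hH.2 κ φ l h
  rw [bd_sub, bd_mul, bd_mul] at h1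
  exact kills_opposite hc (congrArg bd hHY) (hX.2 κ φ l h) h1

theorem single_lieO {i : I} {X : End k (V i)} (h : Pi.single i X ∈ lieT ρ τ ω) :
    X ∈ lieO ρ τ ω i := by
  refine ⟨fun u w => ?_, fun κ _ _ φ l hφ => ?_⟩
  · have h1 := h.1 i u w
    rwa [Pi.single_eq_same] at h1
  · have h1 := h.2 κ φ l hφ
    rwa [bd_single] at h1

/-- The logarithm of a unipotent element. -/
theorem lgT_mem {γ : Γ} {n : ℕ} (hn : ∀ i, (ρ i γ - 1) ^ n = 0) (hτ : τ γ = 1)
    (hω : ∀ i x y, ω i (ρ i γ x) (ρ i γ y) = ω i x y) :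
    (fun i => lg k (ρ i γ - 1) n) ∈ lieT ρ τ ω := by
  have hu : (sumRep ρ γ - 1) ^ n = 0 := by
    have h1 : ∀ (n : ℕ) v i, ((sumRep ρ γ - 1) ^ n) v i = ((ρ i γ - 1) ^ n) (v i) := by
      intro n
      induction n with
      | zero => exact fun _ _ => rfl
      | succ n ih =>
        intro v i
        rw [pow_succ, pow_succ, Module.End.mul_apply, Module.End.mul_apply, ih]
        rfl
    refine LinearMap.ext fun v => funext fun i => ?_
    rw [h1, hn]
    rfl
  have hbd : bd (fun i => lg k (ρ i γ - 1) n) = lg k (sumRep ρ γ - 1) n := by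
    refine LinearMap.ext fun v => funext fun i => ?_
    exact lg_comm' (LinearMap.proj i) (sumRep ρ γ - 1) (ρ i γ - 1) (fun _ => rfl) n v
  refine ⟨fun i => ?_, fun κ _ _ φ l hφ => ?_⟩
  · exact (lg_mem (B := ω i) (ρ := ρ i) (σ := (1 : Γ →* (k →ₗ[k] k))) (S := Fin 0)
      (g := γ) (hn i) (hω i) rfl).1
  · obtain ⟨Δ, hΔ, h1⟩ := hφ
    obtain ⟨N, hN, hgN⟩ := exists_pow hΔ γ
    have h2 : Kill (lg k (sumRep ρ γ - 1) n) φ := by
      refine lg_kill φ hu ?_
      refine Set.infinite_of_injective_forall_mem (f := fun l : ℕ => N * l) ?_ ?_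
      · intro l l' hl
        exact Nat.eq_of_mul_eq_mul_left hN hl
      · intro l v
        have h3 : γ ^ (N * l) ∈ Δ := by
          rw [pow_mul]
          exact Subgroup.pow_mem _ hgN l
        have h4 := h1 _ h3 v
        rw [map_pow, map_pow, hτ, one_pow] at h4
        exact h4
    rw [hbd]
    intro v
    have h3 := congrArg l (h2 v)
    rw [map_sum, map_zero] at h3
    exact h3

variable {D : I → ℕ} {e h f : ∀ i, End k (V i)} {w : ∀ i, ℕ → V i}

/-- **The tuple of the operators `h i` kills the components of equivariant maps.** -/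
theorem hT_kills (hp : ∀ i, Prin (e i) (h i) (f i) (D i) (w i))
    (hdim : ∀ i, finrank k (V i) = D i + 1) {F φ₀ : Γ}
    (hF : ‖j (χ F)‖ ≠ 1)
    (hV : ∀ i a, Module.End.HasEigenvalue (ρ i F) a → ‖j a‖ ^ 2 = ‖j (χ F)‖ ^ wt i)
    (hM : ∀ a, Module.End.HasEigenvalue (τ F) a → ‖j a‖ ^ 2 = ‖j (χ F)‖ ^ m)
    (hM' : ∀ a, Module.End.HasEigenvalue (τ φ₀) a → ‖j a‖ ^ 2 = ‖j (χ φ₀)‖ ^ m)
    {lam : I → k} {q : ℕ} (hq : 2 ≤ q)
    (hw : ∀ i l, ρ i φ₀ (w i l) = (lam i * (q : k) ^ l) • w i l)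
    (hlam : ∀ i, lam i ^ 2 * (q : k) ^ D i = χ φ₀ ^ wt i)
    {κ : Type} [Fintype κ] [DecidableEq κ] {φ : MultilinearMap k (fun _ : κ => ∀ i, V i) M}
    (hφ : IsEqv (sumRep ρ) τ φ) (l : M →ₗ[k] k) : Kills (bd h) (l.compMultilinearMap φ) := by
  classical
  have hχ : χ φ₀ ≠ 0 := by
    intro h0
    have h4 : χ φ₀ * χ φ₀⁻¹ = 1 := by rw [← map_mul, mul_inv_cancel, map_one]
    rw [h0, zero_mul] at h4
    exact zero_ne_one h4
  have hpos : 0 < ‖j (χ φ₀)‖ := norm_pos_iff.2 ((map_ne_zero j).2 hχ)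
  have hq0 : (0 : ℝ) < q := Nat.cast_pos.2 (by omega)
  choose b hb using fun i => (hp i).exists_basis (hdim i)
  obtain ⟨β, hβ⟩ : ∃ β : (Σ i, Fin (D i + 1)) → k, β = fun x => lam x.1 * (q : k) ^ (x.2 : ℕ) :=
    ⟨_, rfl⟩
  obtain ⟨n, hn⟩ : ∃ n : (Σ i, Fin (D i + 1)) → ℤ,
      n = fun x : (Σ i, Fin (D i + 1)) => (2 * (x.2 : ℕ) - D x.1 : ℤ) := ⟨_, rfl⟩
  have hE : ∀ x : Σ i, Fin (D i + 1), (Pi.basis b) x = LinearMap.single k V x.1 (b x.1 x.2) :=
    fun x => by
      rw [Pi.basis_apply]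
      rfl
  have hgen : ∀ x : Σ i, Fin (D i + 1),
      b x.1 x.2 ∈ Module.End.maxGenEigenspace (ρ x.1 φ₀) (β x) := by
    intro x
    refine mem_gen.2 ⟨1, ?_⟩
    rw [pow_one, LinearMap.sub_apply, hb, hw, Module.algebraMap_end_apply, hβ, sub_self]
  have hnorm : ∀ x : Σ i, Fin (D i + 1),
      ‖j (β x)‖ ^ 2 = ‖j (χ φ₀)‖ ^ wt x.1 * (q : ℝ) ^ n x := by
    intro x
    have h1 : ‖j (χ φ₀)‖ ^ wt x.1 = ‖j (lam x.1)‖ ^ 2 * (q : ℝ) ^ D x.1 := by
      rw [← norm_pow, ← map_pow, ← hlam, map_mul, map_pow, map_pow, norm_mul, norm_pow,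
        norm_pow, map_natCast, Complex.norm_natCast]
    rw [h1, hβ, hn]
    beta_reduce
    rw [map_mul, map_pow, norm_mul, norm_pow, map_natCast, Complex.norm_natCast, mul_pow,
      mul_assoc]
    congr 1
    rw [← zpow_natCast (q : ℝ) (D x.1), ← zpow_add₀ hq0.ne', ← pow_mul, ← zpow_natCast]
    congr 1
    push_cast
    ring
  have hh : ∀ x : Σ i, Fin (D i + 1), bd h ((Pi.basis b) x) = ((n x : ℤ) : k) • (Pi.basis b) x := by
    intro x
    rw [hE]
    funext i'
    rw [bd_apply, Pi.smul_apply, LinearMap.single_apply]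
    by_cases h1 : i' = x.1
    · subst h1
      rw [Pi.single_eq_same, hb, (hp x.1).h_w, hn]
      congr 1
      push_cast
      ring
    · rw [Pi.single_eq_of_ne h1, map_zero, smul_zero]
  refine kills_of_basis (Pi.basis b) _ _ fun K => ?_
  have h1 : ∀ s, (l.compMultilinearMap φ) (Function.update (fun s => (Pi.basis b) (K s)) s
      (bd h ((Pi.basis b) (K s)))) =
      ((n (K s) : ℤ) : k) * l (φ (fun s => (Pi.basis b) (K s))) := by
    intro s
    rw [hh, MultilinearMap.map_update_smul, smul_eq_mul,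
      Function.update_eq_self s (fun s => (Pi.basis b) (K s))]
    rfl
  rw [Finset.sum_congr rfl fun s _ => h1 s, ← Finset.sum_mul]
  by_cases h0 : φ (fun s => (Pi.basis b) (K s)) = 0
  · rw [h0, map_zero, mul_zero]
  · have h2 : φ (fun s => LinearMap.single k V (K s).1 (b (K s).1 (K s).2)) ≠ 0 := by
      simpa only [hE] using h0
    have h3 := wt_sum ρ τ χ wt j m hF hV hM hφ (fun s => (K s).1)
      (fun s => b (K s).1 (K s).2) h2
    obtain ⟨a, ha, h4⟩ := norm_eig (ρ := sumRep ρ) (τ := τ) j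
      (fun x : Σ i, Fin (D i + 1) => LinearMap.single k V x.1 (b x.1 x.2)) β φ₀
      (fun x => single_gen ρ (hgen x)) hφ K h2
    have h5 := hM' a ha
    rw [h4, ← Finset.prod_pow, Finset.prod_congr rfl fun s _ => hnorm (K s),
      Finset.prod_mul_distrib, Finset.prod_pow_eq_pow_sum, ← h3, ← Nat.cast_sum,
      zpow_natCast] at h5
    have h6 : ∏ s, (q : ℝ) ^ n (K s) = 1 :=
      mul_left_cancel₀ (pow_ne_zero _ hpos.ne') (h5.trans (mul_one _).symm)
    have h7 : (q : ℝ) ^ (∑ s, n (K s)) = 1 := by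
      rw [← h6]
      have h8 : ∀ t : Finset κ, (q : ℝ) ^ (∑ s ∈ t, n (K s)) = ∏ s ∈ t, (q : ℝ) ^ n (K s) := by
        intro t
        induction t using Finset.induction_on with
        | empty => rw [Finset.sum_empty, Finset.prod_empty, zpow_zero]
        | insert s t hs ih => rw [Finset.sum_insert hs, Finset.prod_insert hs, zpow_add₀ hq0.ne', ih]
      exact h8 _
    have h8 : ∑ s, n (K s) = 0 := by
      refine zpow_right_injective₀ hq0 ?_ (h7.trans (zpow_zero _).symm)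
      have h9 : (2 : ℝ) ≤ q := by exact_mod_cast hq
      linarith
    have h9 : ∑ s, ((n (K s) : ℤ) : k) = 0 := by
      rw [← Int.cast_sum, h8, Int.cast_zero]
    rw [h9, zero_mul]

end Pool.Agent.Helper2.OP
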