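import Pool.Agent.Helper2.OP.Forms
import Pool.Agent.Helper2.OP.Tup

/-!
# Several representations with one Jordan block at one place
-/

set_option autoImplicit false
set_option linter.unusedSectionVars false

namespace Pool.Agent.Helper2.OP

open Module Finset Pool.Agent.Y126.JB Pool.Agent.Y126.MU Pool.Agent.V1141.OF
  Pool.Agent.TH118.SG Pool.Agent.Y130 Pool.Agent.TH125.Gal Pool.Agent.Helper2.MU
open Pool.Agent.H204R3.CM Pool.Agent.H204R3.SP Pool.Agent.H204R3.GP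
open Pool.Agent.K3h45.MU (skew_h skew_f)
open Pool.Agent.Y137.MV (IsEqv kills_zero kills_add kills_smul kills_conj eqv_pull dd_kills)

variable {k : Type} [Field k] [CharZero k] [IsAlgClosed k]

section one

variable {V : Type} [AddCommGroup V] [Module k V] [FiniteDimensional k V] {Γ : Type} [Group Γ]
  {ρ : Representation k Γ V} {γ φ₀ : Γ} {q : ℕ}

/-- The principal triple of one representation. -/
theorem exists_triple (hγ1 : IsNilpotent (ρ γ - 1)) (hγ2 : (ρ γ - 1) ^ (finrank k V - 1) ≠ 0)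
    (hq : 2 ≤ q) (hφγ : ρ φ₀ * ρ γ = ρ γ ^ q * ρ φ₀) {N : ℕ} (hN : (ρ γ - 1) ^ N = 0) :
    ∃ (D : ℕ) (h f : End k V) (w : ℕ → V) (lam : k), finrank k V = D + 1 ∧ lam ≠ 0 ∧
      Prin (lg k (ρ γ - 1) N) h f D w ∧ ∀ l, ρ φ₀ (w l) = (lam * (q : k) ^ l) • w l := by
  have hpos : 0 < finrank k V := by
    rw [Module.finrank_pos_iff_exists_ne_zero]
    by_contra hcon
    push Not at hcon
    apply hγ2
    refine LinearMap.ext fun v => ?_
    rw [hcon v, map_zero, map_zero]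
  obtain ⟨D, hdim⟩ : ∃ D, finrank k V = D + 1 := ⟨finrank k V - 1, by omega⟩
  rw [hdim, Nat.add_sub_cancel] at hγ2
  have hM0 := pow_top hγ1 hdim
  obtain ⟨e, he⟩ : ∃ e, e = lg k (ρ γ - 1) N := ⟨_, rfl⟩
  obtain ⟨W, hW, hcomm, hlg⟩ := lg_eq (K := k) (ρ γ - 1) hN
  rw [← he] at hlg
  have henil : IsNilpotent e := ⟨D + 1, by rw [hlg, hcomm.mul_pow, hM0, zero_mul]⟩
  have heD : e ^ D ≠ 0 := by
    intro h0
    apply hγ2
    rw [hlg, hcomm.mul_pow] at h0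
    exact (hW.pow D).mul_left_eq_zero.1 h0
  obtain ⟨v, hv⟩ : ∃ v, (e ^ D) v ≠ 0 := by
    by_contra hcon
    push Not at hcon
    exact heD (LinearMap.ext fun v => hcon v)
  have hφe : ρ φ₀ * e = (q : k) • (e * ρ φ₀) := by
    rw [he]
    exact lg_frob hN hφγ
  have hinj : Function.Injective (ρ φ₀) := by
    intro x y hxy
    have h1 := congrArg (ρ φ₀⁻¹) hxy
    rw [← Module.End.mul_apply, ← Module.End.mul_apply, ← map_mul, inv_mul_cancel, map_one] at h1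
    exact h1
  have hqi : ∀ l : ℕ, l ≠ 0 → (q : k) ^ l ≠ 1 := by
    intro l hl h1
    have h2 : (q ^ l : ℕ) = 1 := by exact_mod_cast h1
    have h3 : 1 < q ^ l := Nat.one_lt_pow hl (by omega)
    omega
  obtain ⟨u, lam, hlam, hφu, hu⟩ := exists_gen henil hdim hv hφe hinj hqi
  obtain ⟨h, f, hp⟩ := exists_prin henil hdim hu
  obtain ⟨w, hw⟩ : ∃ w : ℕ → V, w = fun l => (e ^ l) u := ⟨_, rfl⟩
  rw [← hw] at hp
  refine ⟨D, h, f, w, lam, hdim, hlam, by rw [← he]; exact hp, fun l => ?_⟩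
  induction l with
  | zero =>
    rw [hw, pow_zero, mul_one]
    exact hφu
  | succ l ih =>
    rw [← hp.e_w, ← Module.End.mul_apply, hφe, LinearMap.smul_apply, Module.End.mul_apply, ih,
      map_smul, smul_smul, pow_succ]
    congr 1
    ring

/-- The form on the eigenvectors. -/
theorem form_triple {e h f : End k V} {D : ℕ} {w : ℕ → V} (hp : Prin e h f D w) {lam : k}
    (hlam : lam ≠ 0) (hq : 2 ≤ q) (hφw : ∀ l, ρ φ₀ (w l) = (lam * (q : k) ^ l) • w l)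
    {ω : V →ₗ[k] V →ₗ[k] k} {s c : k} (hsym : ∀ u v, ω u v = s * ω v u)
    (hnd : ∀ u, (∀ v, ω u v = 0) → u = 0) (hω : ∀ u v, ω (ρ φ₀ u) (ρ φ₀ v) = c * ω u v)
    (hes : ∀ u v, ω (e u) v + ω u (e v) = 0) :
    lam ^ 2 * (q : k) ^ D = c ∧ (∀ u v, ω (h u) v + ω u (h v) = 0) ∧
      (∀ u v, ω (f u) v + ω u (f v) = 0) ∧ ∀ l l', l + l' ≠ D → ω (w l) (w l') = 0 := by
  have hpair : ω (w 0) (w D) ≠ 0 := by
    intro h0
    apply hp.ne_zero (le_refl D)
    refine hnd _ fun v => ?_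
    have h1 : ∀ l, l ≤ D → w l ∈ LinearMap.ker (ω (w D)) := by
      intro l _
      rw [LinearMap.mem_ker]
      by_cases hl : l = 0
      · rw [hl, hsym, h0, mul_zero]
      · have h2 := om_pow hes D (w 0) (w l)
        rw [hp.pow, hp.pow, zero_add, hp.zero (i := l + D) (by omega), map_zero, mul_zero] at h2
        exact h2
    exact LinearMap.mem_ker.1 (hp.mem_all h1 v)
  have hform : ∀ l l', ω (w l) (w l') ≠ 0 → c = lam ^ 2 * (q : k) ^ (l + l') := by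
    intro l l' hll
    have h1 := hω (w l) (w l')
    rw [hφw, hφw, map_smul, map_smul, LinearMap.smul_apply, smul_eq_mul, smul_eq_mul] at h1
    have h2 : (c - lam ^ 2 * (q : k) ^ (l + l')) * ω (w l) (w l') = 0 := by
      rw [pow_add]
      linear_combination -h1
    exact sub_eq_zero.1 ((mul_eq_zero.1 h2).resolve_right hll)
  have hμ : lam ^ 2 * (q : k) ^ D = c := by
    have h1 := hform 0 D hpair
    rw [zero_add] at h1
    exact h1.symm
  have hor : ∀ l l', l + l' ≠ D → ω (w l) (w l') = 0 := by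
    intro l l' hll
    by_contra hne
    have h1 := hform l l' hne
    rw [← hμ] at h1
    have h2 : (q : k) ^ D = (q : k) ^ (l + l') := mul_left_cancel₀ (pow_ne_zero 2 hlam) h1
    have h3 : q ^ D = q ^ (l + l') := by exact_mod_cast h2
    exact hll (Nat.pow_right_injective hq h3).symm
  exact ⟨hμ, skew_h hp hor, skew_f hp hes hor, hor⟩

end one

variable {I : Type} [Fintype I]
  [DecidableEq I] {V : I → Type} [∀ i, AddCommGroup (V i)] [∀ i, Module k (V i)]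
  [∀ i, FiniteDimensional k (V i)] {M : Type} [AddCommGroup M] [Module k M]
  [FiniteDimensional k M] {Γ : Type} [Group Γ] (ρ : ∀ i, Representation k Γ (V i))
  (τ : Representation k Γ M) (χ : Γ →* k) (wt : I → ℕ) (ω : ∀ i, V i →ₗ[k] V i →ₗ[k] k)
  (j : k →+* ℂ) (m : ℤ)

/-- **The block theorem for several representations at one place.** -/
theorem blockT {γ φ₀ F : Γ} {q : ℕ} {s : I → ℤ} (hs : ∀ i, s i = 1 ∨ s i = -1)
    (hsym : ∀ i u v, ω i u v = (s i : k) * ω i v u)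
    (hnd : ∀ i u, (∀ v, ω i v u = 0) → u = 0)
    (hω : ∀ i g u v, ω i (ρ i g u) (ρ i g v) = χ g ^ wt i * ω i u v)
    (hF : ‖j (χ F)‖ ≠ 1)
    (hV : ∀ i a, Module.End.HasEigenvalue (ρ i F) a → ‖j a‖ ^ 2 = ‖j (χ F)‖ ^ wt i)
    (hM : ∀ a, Module.End.HasEigenvalue (τ F) a → ‖j a‖ ^ 2 = ‖j (χ F)‖ ^ m)
    (hγ1 : ∀ i, IsNilpotent (ρ i γ - 1)) (hγ2 : ∀ i, (ρ i γ - 1) ^ (finrank k (V i) - 1) ≠ 0)
    (hγ4 : τ γ = 1) (hγ5 : χ γ = 1)
    (hq : 2 ≤ q) (hφγ : ∀ i, ρ i φ₀ * ρ i γ = ρ i γ ^ q * ρ i φ₀)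
    (hM' : ∀ a, Module.End.HasEigenvalue (τ φ₀) a → ‖j a‖ ^ 2 = ‖j (χ φ₀)‖ ^ m)
    (hnp : ∀ i, (s i = 1 ∧ finrank k (V i) ≤ 3) ∨ finrank k (V i) ≤ 2 ∨
      ∃ g : Γ, ∀ c a : k, (ρ i g).charpoly ≠
        ∏ l ∈ range (finrank k (V i)), (Polynomial.X - Polynomial.C (c * a ^ l)))
    (h7 : ∀ i, s i = 1 → finrank k (V i) ≠ 7)
    (hpair : ∀ i j, ¬ (finrank k (V i) = 2 ∧ finrank k (V j) = 3) ∧
      ¬ (finrank k (V i) = 4 ∧ finrank k (V j) = 5))
    (hsim : ∀ i j, i ≠ j → ∀ W : V i ≃ₗ[k] V j, ¬ ∀ g : Γ, ∃ c : k, ∀ v,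
      W (ρ i g v) = c • ρ j g (W v)) (i : I) :
    ∃ (d : ℕ) (b : Basis (Fin d) k (V i)) (inv : Fin d → Fin d) (J : Fin d → k),
      (∀ a, J a ≠ 0) ∧ (∀ a, inv (inv a) = a) ∧
      (∀ x y, ω i (b x) (b y) = if y = inv x then J x else 0) ∧
      ∀ a c, TT (ω i) (s i : k) (b a) (b c) ∈ lieO ρ τ ω i := by
  have hnd' : ∀ i, ∀ u, (∀ v, ω i u v = 0) → u = 0 := by
    intro i u hu
    apply hnd i
    intro v
    rw [hsym, hu, mul_zero]
  -- a common exponent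
  obtain ⟨N, hN⟩ : ∃ N, ∀ i, (ρ i γ - 1) ^ N = 0 := by
    choose n hn using hγ1
    refine ⟨∑ i, n i, fun i => ?_⟩
    have h1 : n i ≤ ∑ i, n i := Finset.single_le_sum (fun _ _ => Nat.zero_le _) (mem_univ i)
    obtain ⟨r, hr⟩ := Nat.exists_eq_add_of_le h1
    rw [hr, pow_add, hn, zero_mul]
  choose D h f w lam hdim hlam hp hφw using
    fun i => exists_triple (hγ1 i) (hγ2 i) hq (hφγ i) (hN i)
  have heL : (fun i => lg k (ρ i γ - 1) N) ∈ lieT ρ τ ω :=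
    lgT_mem ρ τ ω hN hγ4 fun i x y => by rw [hω, hγ5, one_pow, one_mul]
  obtain ⟨e, he⟩ : ∃ e : ∀ i, End k (V i), e = fun i => lg k (ρ i γ - 1) N := ⟨_, rfl⟩
  rw [← he] at heL
  have hp' : ∀ i, Prin (e i) (h i) (f i) (D i) (w i) := by
    rw [he]
    exact hp
  have hsk : ∀ Y ∈ lieT ρ τ ω, ∀ i u v, ω i (Y i u) v + ω i u (Y i v) = 0 := fun Y hY => hY.1
  have hbr : ∀ Y ∈ lieT ρ τ ω, ∀ Z ∈ lieT ρ τ ω, Y * Z - Z * Y ∈ lieT ρ τ ω :=
    fun Y hY Z hZ => lieT_bracket ρ τ ω hY hZ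
  have hform := fun i => form_triple (hp' i) (hlam i) hq (hφw i) (hsym i) (hnd' i) (hω i φ₀)
    (hsk e heL i)
  have hhL : h ∈ lieT ρ τ ω := ⟨fun i => (hform i).2.1, fun κ _ _ φ l hφ =>
    hT_kills ρ τ χ wt j m hp' hdim hF hV hM hM' hq hφw (fun i => (hform i).1) hφ l⟩
  have hef : e * f - f * e = h := funext fun i => (hp' i).ef.symm
  have hfL : f ∈ lieT ρ τ ω := by
    refine lieT_opp ρ τ ω e f (-2) heL (fun i => (hform i).2.2.1) (by rw [hef]; exact hhL) ?_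
      (by norm_num)
    rw [hef]
    exact funext fun i => (hp' i).hf
  obtain ⟨h1, h2, h3⟩ := triples_mem hp' hbr hdim heL hhL hfL hs hsym hnd' hsk ρ
    (fun g X hX => lieT_conj ρ τ ω hω g hX) hnp h7 hpair hsim i
  -- the basis
  obtain ⟨b, hb⟩ := (hp' i).exists_basis (hdim i)
  have hor := (hform i).2.2.2
  refine ⟨D i + 1, b, Fin.rev, fun x => ω i (w i x) (w i (D i - x)), fun x => ?_, Fin.rev_rev,
    fun x y => ?_, fun a c => ?_⟩
  · exact (hp' i).pair' (hsk e heL i) (hform i).2.1 (hnd' i) (by omega)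
  · rw [hb, hb]
    by_cases hxy : y = Fin.rev x
    · rw [if_pos hxy, hxy, Fin.val_rev]
      congr 2
      omega
    · rw [if_neg hxy]
      refine hor _ _ fun h1 => hxy ?_
      rw [Fin.ext_iff, Fin.val_rev]
      omega
  · rw [hb, hb]
    exact full_triple (hp' i) (hdim i) (hs i) (hsym i) (hnd' i)
      (fun Y hY Z hZ => lieO_bracket ρ τ ω i hY hZ) (fun Y hY => hY.1)
      (single_lieO ρ τ ω h1) (single_lieO ρ τ ω h2) (single_lieO ρ τ ω h3) (ρ i)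
      (fun g X hX => lieO_conj ρ τ ω i (c := fun g => χ g ^ wt i) (hω i) g hX)
      (hnp i) (h7 i) (by omega) (by omega)

end Pool.Agent.Helper2.OP
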