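import Pool.Agent.Helper2.OP.Fam
import Pool.Agent.Helper2.MU.Wt

/-!
# Matched chains give intertwining operators
-/

set_option autoImplicit false
set_option linter.unusedSectionVars false

namespace Pool.Agent.Helper2.OP

open Module Finset Pool.Agent.Y126.JB Pool.Agent.Y126.MU Pool.Agent.Helper2.MU
  Pool.Agent.Helper2.GLM Pool.Agent.Y130

variable {K : Type} [Field K] [CharZero K] {I : Type} {T : I → Type}
  [∀ i, AddCommGroup (T i)] [∀ i, Module K (T i)] [∀ i, FiniteDimensional K (T i)]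
  {D : I → ℕ} {w : ∀ i, ℕ → T i}
  {L : Submodule K (∀ i, End K (T i))} {e h f : ∀ i, End K (T i)}
  (hp : ∀ i, Prin (e i) (h i) (f i) (D i) (w i))
  (hbr : ∀ Y ∈ L, ∀ Z ∈ L, Y * Z - Z * Y ∈ L)

include hp in
/-- weight vectors of tuples -/
theorem wt_tuple {μ : K} {X : ∀ i, End K (T i)} (hX : X ∈ gE (ad K h) μ) (i : I) :
    ad K (h i) (X i) = μ • X i := by
  refine (hp i).ad_gE ?_
  exact gen_map (f := ad K h) (f' := ad K (h i)) (φ := LinearMap.proj i) (fun _ => rfl) hX

include hp hbr in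
/-- A diagonal component of an element is a component of a diagonal element. -/
theorem exists_diag [Finite I] [IsAlgClosed K] (hdim : ∀ i, finrank K (T i) = D i + 1)
    (hhL : h ∈ L) {i : I} {X : ∀ i, End K (T i)} (hX : X ∈ L) {a : ℕ → K}
    (ha : ∀ l, l ≤ D i → X i (w i l) = a l • w i l) :
    ∃ b ∈ FD D w L, ∀ l, l ≤ D i → b i l = a l := by
  obtain ⟨bs, hbs⟩ := (hp i).exists_basis (hdim i)
  let P0 : Submodule K (∀ i, End K (T i)) := L ⊓ LinearMap.ker (ad K h)
  let P1 : Submodule K (∀ i, End K (T i)) :=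
    { carrier := {Y | ∀ l : Fin (D i + 1), bs.coord l (Y i (w i l)) = 0}
      zero_mem' := fun l => by rw [Pi.zero_apply, LinearMap.zero_apply, map_zero]
      add_mem' := fun {Y Z} hY hZ l => by
        rw [Pi.add_apply, LinearMap.add_apply, map_add, hY l, hZ l, add_zero]
      smul_mem' := fun c Y hY l => by
        rw [Pi.smul_apply, LinearMap.smul_apply, map_smul, hY l, smul_zero] }
  have hle : L ≤ P0 ⊔ P1 := by
    refine le_of_gE (g := ad K h) (fun x hx => hbr h hhL x hx) fun μ x hx hxμ => ?_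
    have hx1 := wt_tuple hp hxμ
    by_cases hμ : μ = 0
    · refine Submodule.mem_sup_left ⟨hx, ?_⟩
      change ad K h x = 0
      funext j
      have h1 := hx1 j
      rw [hμ, zero_smul] at h1
      exact h1
    · refine Submodule.mem_sup_right fun l => ?_
      have h1 := congrArg (bs.coord l) (LinearMap.congr_fun (hx1 i) (w i l))
      have h2 : ∀ v, bs.coord l (h i v) = (2 * ((l : ℕ) : K) - D i) * bs.coord l v := by
        intro v
        have h3 : (bs.coord l).comp (h i) = (2 * ((l : ℕ) : K) - D i) • bs.coord l := by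
          refine bs.ext fun m => ?_
          rw [LinearMap.comp_apply, LinearMap.smul_apply, smul_eq_mul, hbs, (hp i).h_w, map_smul,
            ← hbs, smul_eq_mul, Basis.coord_apply, Basis.repr_self]
          by_cases hlm : m = l
          · rw [hlm]
          · rw [Finsupp.single_apply, if_neg hlm, mul_zero, mul_zero]
        exact LinearMap.congr_fun h3 v
      rw [ad_apply, LinearMap.sub_apply, Module.End.mul_apply, Module.End.mul_apply, map_sub, h2,
        (hp i).h_w, map_smul, map_smul, smul_eq_mul, sub_self, LinearMap.smul_apply, map_smul,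
        smul_eq_mul] at h1
      exact (mul_eq_zero.1 h1.symm).resolve_left hμ
  obtain ⟨X0, ⟨h0L, h0k'⟩, X1, h1, h01⟩ := Submodule.mem_sup.1 (hle hX)
  have h0k : ad K h X0 = 0 := h0k'
  have hdiag : ∀ j l, ∃ c : K, X0 j (w j l) = c • w j l := by
    intro j l
    obtain ⟨c, hc⟩ := (hp j).wt (Z := X0 j) (m := 0) (by
      have h2 := congrFun h0k j
      rw [Nat.cast_zero, mul_zero, zero_smul]
      exact h2) l
    exact ⟨c, hc⟩
  choose b hb using hdiag
  refine ⟨b, ⟨X0, h0L, fun j l _ => hb j l⟩, fun l hl => ?_⟩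
  have h2 := ha l hl
  rw [← h01, Pi.add_apply, LinearMap.add_apply, hb] at h2
  have h3 := congrArg (bs.coord ⟨l, by omega⟩) h2
  have h4 : bs.coord ⟨l, by omega⟩ (X1 i (w i l)) = 0 := h1 ⟨l, by omega⟩
  have h5 : bs.coord ⟨l, by omega⟩ (w i l) = 1 := by
    have h6 : w i l = bs ⟨l, by omega⟩ := (hbs ⟨l, by omega⟩).symm
    rw [h6, Basis.coord_apply, Basis.repr_self, Finsupp.single_eq_same]
  rw [map_add, map_smul, map_smul, h4, h5, add_zero, smul_eq_mul, smul_eq_mul, mul_one,
    mul_one] at h3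
  exact h3

theorem trace_br {V : Type} [AddCommGroup V] [Module K V] (X Y : End K V) :
    LinearMap.trace K V (ad K X Y) = 0 := by
  rw [ad_apply, map_sub, LinearMap.trace_mul_comm, sub_self]

/-- a scalar operator with trace zero -/
theorem scalar_zero {V : Type} [AddCommGroup V] [Module K V] [FiniteDimensional K V]
    (hV : 0 < finrank K V) {c : K} (h : LinearMap.trace K V (c • (1 : End K V)) = 0) : c = 0 := by
  rw [map_smul, LinearMap.trace_one, smul_eq_mul] at h
  exact (mul_eq_zero.1 h).resolve_right (Nat.cast_ne_zero.2 hV.ne')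

/-- `ad` of a tuple -/
theorem pow_mem {x : ∀ i, End K (T i)} (hbr : ∀ Y ∈ L, ∀ Z ∈ L, Y * Z - Z * Y ∈ L) (hx : x ∈ L)
    {y : ∀ i, End K (T i)} (hy : y ∈ L) (n : ℕ) : (ad K x ^ n) y ∈ L := by
  induction n with
  | zero => exact hy
  | succ n ih =>
    rw [pow_succ', Module.End.mul_apply]
    exact hbr x hx _ ih

theorem ad_pow_comp (x y : ∀ i, End K (T i)) (n : ℕ) (i : I) :
    ((ad K x ^ n) y) i = (ad K (x i) ^ n) (y i) := by
  induction n with
  | zero => rfl
  | succ n ih =>
    rw [pow_succ', pow_succ', Module.End.mul_apply, Module.End.mul_apply, ← ih]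
    rfl

include hp hbr in
/-- **Matched chains.** -/
theorem inter [Finite I] [IsAlgClosed K] (hdim : ∀ i, finrank K (T i) = D i + 1)
    (heL : e ∈ L) (hhL : h ∈ L) (hfL : f ∈ L) {i j : I}
    (hm : ∀ l, l < D i → Eqv2 (FA D w L) i l j l) (hDij : D i = D j)
    (W : T i ≃ₗ[K] T j) (hW : ∀ l, W (w i l) = w j l) :
    ∀ X ∈ L, ∃ c : K, ∀ v, W (X i v) = X j (W v) + c • W v := by
  -- the difference
  let Z : (∀ i, End K (T i)) →ₗ[K] End K (T j) :=
    { toFun := fun X => (W : T i →ₗ[K] T j) ∘ₗ X i ∘ₗ (W.symm : T j →ₗ[K] T i) - X j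
      map_add' := fun X Y => by
        ext v
        simp only [LinearMap.sub_apply, LinearMap.comp_apply, Pi.add_apply, LinearMap.add_apply,
          map_add]
        abel
      map_smul' := fun c X => by
        ext v
        simp only [LinearMap.sub_apply, LinearMap.comp_apply, Pi.smul_apply, LinearMap.smul_apply,
          map_smul, RingHom.id_apply, smul_sub] }
  have hZ : ∀ X v, Z X (W v) = W (X i v) - X j (W v) := by
    intro X v
    change W (X i (W.symm (W v))) - X j (W v) = _
    rw [LinearEquiv.symm_apply_apply]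
  have hZbr : ∀ x, Z x = 0 → ∀ X, Z (ad K x X) = ad K (x j) (Z X) := by
    intro x hx X
    refine LinearMap.ext fun u => ?_
    obtain ⟨v, rfl⟩ := W.surjective u
    have h1 : ∀ v, W (x i v) = x j (W v) := by
      intro v
      have h2 := hZ x v
      rw [hx, LinearMap.zero_apply] at h2
      exact (sub_eq_zero.1 h2.symm)
    have h2 : (ad K x X) i v = x i (X i v) - X i (x i v) := rfl
    have h3 : (ad K x X) j (W v) = x j (X j (W v)) - X j (x j (W v)) := rfl
    rw [hZ, h2, h3, ad_apply, LinearMap.sub_apply, Module.End.mul_apply, Module.End.mul_apply, hZ,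
      map_sub, map_sub, h1, ← h1 v, hZ]
    abel
  have hZe : Z e = 0 := by
    refine (hp j).ext fun l _ => ?_
    rw [← hW, hZ, LinearMap.zero_apply, hW, (hp i).e_w, (hp j).e_w, hW, sub_self]
  have hZh : Z h = 0 := by
    refine (hp j).ext fun l _ => ?_
    rw [← hW, hZ, LinearMap.zero_apply, hW, (hp i).h_w, (hp j).h_w, map_smul, hW, hDij, sub_self]
  have hZf : Z f = 0 := by
    refine (hp j).ext fun l _ => ?_
    rw [← hW, hZ, LinearMap.zero_apply, hW]
    cases l with
    | zero => rw [(hp i).f_zero, (hp j).f_zero, map_zero, sub_self]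
    | succ l => rw [(hp i).f_w, (hp j).f_w, map_smul, hW, hDij, sub_self]
  have hpos : 0 < finrank K (T j) := by
    rw [hdim]
    omega
  -- the statement for `Z`
  suffices hmain : ∀ X ∈ L, ∃ c : K, Z X = c • 1 by
    intro X hX
    obtain ⟨c, hc⟩ := hmain X hX
    refine ⟨c, fun v => ?_⟩
    have h1 := hZ X v
    rw [hc, LinearMap.smul_apply, Module.End.one_apply] at h1
    rw [h1]
    abel
  by_contra hcon
  let S : Submodule K (End K (T j)) := Submodule.span K {1}
  have hS : ∀ y, y ∈ S ↔ ∃ c : K, y = c • 1 := by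
    intro y
    rw [Submodule.mem_span_singleton]
    exact ⟨fun ⟨c, hc⟩ => ⟨c, hc.symm⟩, fun ⟨c, hc⟩ => ⟨c, hc.symm⟩⟩
  obtain ⟨a, x, hxL, hxa, hxS⟩ : ∃ (a : K) (x : ∀ i, End K (T i)), x ∈ L ∧
      (∀ i, ad K (h i) (x i) = a • x i) ∧ Z x ∉ S := by
    by_contra hcon2
    push Not at hcon2
    apply hcon
    have h1 : L ≤ S.comap Z := by
      refine le_of_gE (g := ad K h) (fun x hx => hbr h hhL x hx) fun μ x hx hxμ => ?_
      exact hcon2 μ x hx (wt_tuple hp hxμ)
    exact fun X hX => (hS _).1 (h1 hX)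
  have hZpow : ∀ x, Z x = 0 → ∀ X n, Z ((ad K x ^ n) X) = (ad K (x j) ^ n) (Z X) := by
    intro x hx X n
    induction n with
    | zero => rfl
    | succ n ih =>
      rw [pow_succ', pow_succ', Module.End.mul_apply, Module.End.mul_apply, hZbr x hx, ih]
  -- apply `ad e`
  obtain ⟨b, y, hyL, hyb, hyS, hye⟩ : ∃ (b : K) (y : ∀ i, End K (T i)), y ∈ L ∧
      (∀ i, ad K (h i) (y i) = b • y i) ∧ Z y ∉ S ∧ ad K (e j) (Z y) = 0 := by
    have h1 : ∃ n, Z ((ad K e ^ n) x) ∈ S := by
      obtain ⟨n, hn⟩ := ad_nilpotent (K := K) (hp j).nil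
      refine ⟨n, ?_⟩
      rw [hZpow e hZe, hn, LinearMap.zero_apply]
      exact S.zero_mem
    classical
    have h2 := Nat.find_spec h1
    have h3 : Nat.find h1 ≠ 0 := by
      intro h3
      rw [h3, pow_zero, Module.End.one_apply] at h2
      exact hxS h2
    obtain ⟨n, hn⟩ := Nat.exists_eq_succ_of_ne_zero h3
    have h4 := Nat.find_min h1 (m := n) (by omega)
    refine ⟨a + 2 * n, (ad K e ^ n) x, pow_mem hbr heL hxL n, fun i => ?_, h4, ?_⟩
    · have h5 : ad K (ad K (h i)) (ad K (e i)) = (2 : K) • ad K (e i) := by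
        rw [ad_ad, (hp i).he, ad_smul']
      rw [ad_pow_comp]
      exact h_pow_apply h5 (hxa i) n
    · rw [hn, Nat.succ_eq_add_one, pow_succ', Module.End.mul_apply, hZbr e hZe] at h2
      obtain ⟨c, hc⟩ := (hS _).1 h2
      have h5 : c = 0 := by
        refine scalar_zero hpos ?_
        rw [← hc, trace_br]
      rw [hc, h5, zero_smul]
  have hZyb : ad K (h j) (Z y) = b • Z y := by
    rw [← hZbr h hZh, ← map_smul]
    have h1 : ad K h y = b • y := funext fun i => hyb i
    rw [h1]
  have hZy0 : Z y ≠ 0 := by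
    intro h0
    apply hyS
    rw [h0]
    exact S.zero_mem
  obtain ⟨k, c, hk, hbk, hc, hZy⟩ := (hp j).centr hZy0 hye hZyb
  have hk0 : k ≠ 0 := by
    rintro rfl
    apply hyS
    rw [hS]
    exact ⟨c, by rw [hZy, pow_zero]⟩
  -- go down to the weight zero
  have hdn : ∀ (n : ℕ) (i : I),
      ad K (h i) (((ad K f ^ n) y) i) = (b - 2 * n) • ((ad K f ^ n) y) i := by
    intro n i
    rw [ad_pow_comp]
    exact (hp i).ad_f_pow (hyb i) n
  have hw0 : ∀ i l, ∃ c : K, ((ad K f ^ k) y) i (w i l) = c • w i l := by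
    intro i l
    obtain ⟨c, hc⟩ := (hp i).wt (Z := ((ad K f ^ k) y) i) (m := 0) (by
      rw [hdn, hbk, sub_self, Nat.cast_zero, mul_zero]) l
    exact ⟨c, hc⟩
  choose α hα using hw0
  have hαd : α ∈ FD D w L := ⟨_, pow_mem hbr hfL hyL k, fun i l _ => hα i l⟩
  have hdiff := fun l hl => hm l hl _ (diff_FA hp hbr hαd)
  have hconst : ∀ l, l ≤ D i → α i l - α j l = α i 0 - α j 0 := by
    intro l
    induction l with
    | zero => exact fun _ => rfl
    | succ l ih =>
      intro hl
      rw [← ih (by omega)]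
      have h1 := hdiff l (by omega)
      linear_combination h1
  have hZk : Z ((ad K f ^ k) y) = (α i 0 - α j 0) • 1 := by
    refine (hp j).ext fun l hl => ?_
    rw [← hW, hZ, hα, map_smul, hW, hα, ← sub_smul, hconst l (by omega), LinearMap.smul_apply,
      Module.End.one_apply]
  have hZk0 : (ad K (f j) ^ k) (Z y) = 0 := by
    rw [← hZpow f hZf]
    obtain ⟨k', rfl⟩ := Nat.exists_eq_succ_of_ne_zero hk0
    have h1 : α i 0 - α j 0 = 0 := by
      refine scalar_zero hpos ?_
      rw [← hZk, Nat.succ_eq_add_one, pow_succ', Module.End.mul_apply, hZbr f hZf, trace_br]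
    rw [hZk, h1, zero_smul]
  -- the contradiction
  classical
  have hex : ∃ n, (ad K (f j) ^ n) (Z y) = 0 := ⟨k, hZk0⟩
  have h2 := Nat.find_spec hex
  have h3 : Nat.find hex ≠ 0 := by
    intro h3
    rw [h3, pow_zero, Module.End.one_apply] at h2
    exact hZy0 h2
  have h3' : Nat.find hex ≤ k := Nat.find_min' hex hZk0
  obtain ⟨n, hn⟩ := Nat.exists_eq_succ_of_ne_zero h3
  have h4 := Nat.find_min hex (m := n) (by omega)
  rw [hn, Nat.succ_eq_add_one, pow_succ', Module.End.mul_apply] at h2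
  have h5 := (hp j).ad_f_pow hZyb n
  obtain ⟨m, c', -, hm', -, -⟩ := (rev (hp j)).centr h4 h2 (a := -(b - 2 * n)) (by
    have h6 : ∀ Y, ad K (-(h j)) Y = -ad K (h j) Y := by
      intro Y
      rw [ad_apply, ad_apply, neg_mul, mul_neg]
      abel
    rw [h6, h5, neg_smul])
  have h6 : ((k + m : ℕ) : K) = (n : ℕ) := by
    push_cast
    have h7 : (2 : K) * ((k : K) + m - n) = 0 := by
      rw [hbk] at hm'
      linear_combination -hm'
    exact sub_eq_zero.1 ((mul_eq_zero.1 h7).resolve_left two_ne_zero)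
  have h7 : k + m = n := Nat.cast_injective h6
  omega

end Pool.Agent.Helper2.OP
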