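import Pool.Agent.Helper2.OP.Chain

/-!
# Matched chains
-/

set_option autoImplicit false
set_option linter.unusedSectionVars false

namespace Pool.Agent.Helper2.OP

open Finset Pool.Agent.Helper2.MU Pool.Agent.Helper2.GLM

/-- an injective walk on a path is monotone -/
theorem path (n : ℕ) (μ : ℕ → ℕ)
    (hadj : ∀ l, l + 1 < n → μ (l + 1) = μ l + 1 ∨ μ l = μ (l + 1) + 1)
    (hinj : ∀ l l', l < n → l' < n → μ l = μ l' → l = l') :
    (∀ l, l < n → μ l = μ 0 + l) ∨ (∀ l, l < n → μ l + l = μ 0) := by
  rcases Nat.lt_or_ge 1 n with hn | hn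
  · rcases hadj 0 hn with h0 | h0
    · left
      have key : ∀ l, l + 1 < n → μ l = μ 0 + l ∧ μ (l + 1) = μ 0 + (l + 1) := by
        intro l
        induction l with
        | zero => exact fun _ => ⟨rfl, h0⟩
        | succ l ih =>
          intro hl
          obtain ⟨h1, h2⟩ := ih (by omega)
          refine ⟨h2, ?_⟩
          rcases hadj (l + 1) hl with h3 | h3
          · omega
          · have h4 := hinj l (l + 1 + 1) (by omega) hl (by omega)
            omega
      intro l hl
      rcases Nat.eq_zero_or_pos l with h1 | h1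
      · rw [h1, add_zero]
      · have h2 := (key (l - 1) (by omega)).2
        rwa [show l - 1 + 1 = l by omega] at h2
    · right
      have key : ∀ l, l + 1 < n → μ l + l = μ 0 ∧ μ (l + 1) + (l + 1) = μ 0 := by
        intro l
        induction l with
        | zero => exact fun _ => ⟨rfl, h0.symm⟩
        | succ l ih =>
          intro hl
          obtain ⟨h1, h2⟩ := ih (by omega)
          refine ⟨h2, ?_⟩
          rcases hadj (l + 1) hl with h3 | h3
          · have h4 := hinj l (l + 1 + 1) (by omega) hl (by omega)
            omega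
          · omega
      intro l hl
      rcases Nat.eq_zero_or_pos l with h1 | h1
      · rw [h1, add_zero]
      · have h2 := (key (l - 1) (by omega)).2
        rwa [show l - 1 + 1 = l by omega] at h2
  · left
    intro l hl
    rw [show l = 0 by omega, add_zero]

open Classical in
/-- the number of classes -/
noncomputable def half (fm : Prop) (P : ℕ) : ℕ := if fm then (P + 1) / 2 else P

theorem half_form {fm : Prop} (h : fm) (P : ℕ) : half fm P = (P + 1) / 2 := if_pos h

theorem half_lin {fm : Prop} (h : ¬ fm) (P : ℕ) : half fm P = P := if_neg h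

theorem half_le (fm : Prop) (P : ℕ) : half fm P ≤ P := by
  by_cases h : fm
  · rw [half_form h]
    omega
  · rw [half_lin h]

theorem exists_rep (fm : Prop) {P x : ℕ} (hx : x < P) : ∃ y, y < half fm P ∧ Own fm P y x := by
  by_cases h : fm
  · rw [half_form h]
    by_cases h1 : x < (P + 1) / 2
    · exact ⟨x, h1, Or.inl rfl⟩
    · exact ⟨P - 1 - x, by omega, Or.inr ⟨h, by omega⟩⟩
  · rw [half_lin h]
    exact ⟨x, hx, Or.inl rfl⟩

theorem rep_unique {fm : Prop} {P x y : ℕ} (hx : x < half fm P) (hy : y < half fm P)
    (h : Own fm P x y) : y = x := by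
  rcases h with h | ⟨h, h1⟩
  · exact h
  · rw [half_form h] at hx hy
    omega

/-- the diagonal entry -/
noncomputable def sv (fm : Prop) (P l : ℕ) : ℤ := tz P (ow fm P l) l

theorem ow_pos {fm : Prop} {P l x : ℕ} (h : Own fm P l x) : ow fm P l x = 1 := if_pos h

theorem ow_neg {fm : Prop} {P l x : ℕ} (h : ¬ Own fm P l x) : ow fm P l x = 0 := if_neg h

theorem sv_eq {fm : Prop} {P l : ℕ} (hl : l < half fm P) (h : ¬ (fm ∧ 2 * l + 2 = P)) :
    sv fm P l = -2 * (((l : ℤ) + 1) * ((P : ℤ) - l)) := by
  have hlP := lt_of_lt_of_le hl (half_le fm P)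
  have h1 : (if l = 0 then 0 else kz P (l - 1) * ow fm P l (l - 1)) = 0 := by
    by_cases h0 : l = 0
    · rw [if_pos h0]
    · rw [if_neg h0, ow_neg, mul_zero]
      rintro (h2 | ⟨h2, h3⟩)
      · omega
      · rw [half_form h2] at hl
        omega
  have h2 : kz P (l + 1) * ow fm P l (l + 1) = 0 := by
    rw [ow_neg, mul_zero]
    rintro (h2 | ⟨h2, h3⟩)
    · omega
    · exact h ⟨h2, by omega⟩
  unfold sv tz
  rw [h1, h2, ow_pos (Or.inl rfl)]
  unfold kz
  ring

theorem sv_last {fm : Prop} {P l : ℕ} (hf : fm) (h : 2 * l + 2 = P) :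
    sv fm P l = -(((l : ℤ) + 1) * ((P : ℤ) - l)) := by
  have h1 : (if l = 0 then 0 else kz P (l - 1) * ow fm P l (l - 1)) = 0 := by
    by_cases h0 : l = 0
    · rw [if_pos h0]
    · rw [if_neg h0, ow_neg, mul_zero]
      rintro (h2 | ⟨h2, h3⟩)
      · omega
      · omega
  unfold sv tz
  rw [h1, ow_pos (Or.inl rfl), ow_pos (Or.inr ⟨hf, by omega⟩)]
  unfold kz
  rw [← h]
  push_cast
  ring

variable {K : Type*} [Field K] [CharZero K] {I : Type*}
  {D : I → ℕ} {fm : I → Prop} {A : Subalgebra K (I → ℕ → K)} (hA : Good D fm A)

include hA in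
theorem Good.numbers [Fintype I] {i j : I} {l l' x x' : ℕ} (hl : l < D i) (hx : x < D i)
    (hl' : l' < D j) (hx' : x' < D j) (hR : Eqv2 A i l j l') (hR' : Eqv2 A i x j x') :
    tz (D i) (ow (fm i) (D i) l) x = tz (D j) (ow (fm j) (D j) l') x' := by
  refine hA.key hl hx hx' hR' _ (fun y hy h => ?_) (fun y hy h => ?_)
  · exact ow_pos ((hA.own_iff hl' hy).1 (hR.symm.trans h))
  · exact ow_neg fun h1 => h (hR.trans ((hA.own_iff hl' hy).2 h1))

include hA in
/-- **Matched chains.** -/
theorem Good.matched [Fintype I] (hlin : ∀ i, ¬ fm i → D i ≠ 1) (hf6 : ∀ i, fm i → D i ≠ 6)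
    (hpair : ∀ i j, fm i → fm j → ¬ (D i = 1 ∧ D j = 2) ∧ ¬ (D i = 3 ∧ D j = 4))
    {i j : I} {l₀ l₀' : ℕ} (hl₀ : l₀ < D i) (hl₀' : l₀' < D j) (hR : Eqv2 A i l₀ j l₀') :
    D i = D j ∧ (fm i ↔ fm j) ∧ ((∀ l, l < D i → Eqv2 A i l j l) ∨
      (¬ fm i ∧ ∀ l, l < D i → Eqv2 A i l j (D i - 1 - l))) := by
  classical
  have hi := half_le (fm i) (D i)
  have hj := half_le (fm j) (D j)
  -- representatives
  have hrep : ∀ l, l < half (fm i) (D i) → ∃ l', l' < half (fm j) (D j) ∧ Eqv2 A i l j l' := by
    intro l hl
    obtain ⟨x', hx', h1⟩ := hA.all hl₀ hl₀' hR l (by omega)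
    obtain ⟨y, hy, h2⟩ := exists_rep (fm j) hx'
    exact ⟨y, hy, h1.trans ((hA.own_iff (by omega) hx').2 h2).symm⟩
  have hrep' : ∀ l', l' < half (fm j) (D j) → ∃ l, l < half (fm i) (D i) ∧ Eqv2 A i l j l' := by
    intro l hl
    obtain ⟨x', hx', h1⟩ := hA.all hl₀' hl₀ hR.symm l (by omega)
    obtain ⟨y, hy, h2⟩ := exists_rep (fm i) hx'
    exact ⟨y, hy, ((hA.own_iff (by omega) hx').2 h2).trans h1.symm⟩
  choose! μ hμ1 hμ2 using hrep
  have huniq : ∀ l, l < half (fm i) (D i) → ∀ y, y < half (fm j) (D j) → Eqv2 A i l j y →
      y = μ l := by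
    intro l hl y hy h
    have h1 := hμ1 l hl
    exact rep_unique h1 hy ((hA.own_iff (by omega) (by omega)).1 ((hμ2 l hl).symm.trans h))
  have hinj : ∀ l l', l < half (fm i) (D i) → l' < half (fm i) (D i) → μ l = μ l' → l = l' := by
    intro l l' hl hl' h
    have h1 := hμ2 l' hl'
    rw [← h] at h1
    exact rep_unique hl' hl ((hA.own_iff (by omega) (by omega)).1 (h1.trans (hμ2 l hl).symm))
  have hadj : ∀ l, l + 1 < half (fm i) (D i) → μ (l + 1) = μ l + 1 ∨ μ l = μ (l + 1) + 1 := by
    intro l hl
    have hm := hμ1 l (by omega)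
    obtain ⟨x', hx', h1, h2⟩ := hA.step (i := i) (j := j) (l := l) (l' := μ l) (x := l + 1)
      (by omega) (by omega) (hμ2 l (by omega)) (by omega) (Or.inl rfl)
      (fun h => by
        have h1 := rep_unique (by omega) hl h
        omega)
    by_cases h3 : x' < half (fm j) (D j)
    · have h4 := huniq (l + 1) hl x' h3 h2
      omega
    · have hfj : fm j := by
        by_contra hfj
        rw [half_lin hfj] at h3
        exact h3 hx'
      rw [half_form hfj] at h3 hm
      have h5 : Eqv2 A j x' j (D j - 1 - x') :=
        (hA.own_iff hx' (by omega)).2 (Or.inr ⟨hfj, by omega⟩)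
      have h6 := huniq (l + 1) hl (D j - 1 - x') (by rw [half_form hfj]; omega) (h2.trans h5)
      by_cases h7 : D j - 1 - x' = μ l
      · have h8 := hinj (l + 1) l hl (by omega) (by rw [← h6, h7])
        omega
      · omega
  have hpos : 0 < half (fm i) (D i) := by
    obtain ⟨y, hy, -⟩ := exists_rep (fm i) hl₀
    omega
  have hsurj : ∀ y, y < half (fm j) (D j) → ∃ l, l < half (fm i) (D i) ∧ μ l = y := by
    intro y hy
    obtain ⟨l, hl, h1⟩ := hrep' y hy
    exact ⟨l, hl, (huniq l hl y hy h1).symm⟩
  have hpos' : 0 < half (fm j) (D j) := by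
    have h1 := hμ1 0 hpos
    omega
  have hmain : half (fm i) (D i) = half (fm j) (D j) ∧
      ((∀ l, l < half (fm i) (D i) → μ l = l) ∨
        (∀ l, l < half (fm i) (D i) → μ l + l + 1 = half (fm i) (D i))) := by
    rcases path (half (fm i) (D i)) μ hadj hinj with h | h
    · obtain ⟨a, ha, ha'⟩ := hsurj 0 hpos'
      obtain ⟨b, hb, hb'⟩ := hsurj (half (fm j) (D j) - 1) (by omega)
      have h1 := h a ha
      have h2 := h b hb
      have h3 := hμ1 (half (fm i) (D i) - 1) (by omega)
      rw [h (half (fm i) (D i) - 1) (by omega)] at h3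
      refine ⟨by omega, Or.inl fun l hl => ?_⟩
      have h4 := h l hl
      omega
    · obtain ⟨a, ha, ha'⟩ := hsurj 0 hpos'
      obtain ⟨b, hb, hb'⟩ := hsurj (half (fm j) (D j) - 1) (by omega)
      have h1 := h a ha
      have h2 := h b hb
      have h3 := h (half (fm i) (D i) - 1) (by omega)
      have h4 := hμ1 0 hpos
      have h5 : half (fm i) (D i) = half (fm j) (D j) := by omega
      refine ⟨h5, Or.inr fun l hl => ?_⟩
      have h6 := h l hl
      omega
  obtain ⟨hn, hcase⟩ := hmain
  -- from representatives to all points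
  have hext : D i = D j → (fm i ↔ fm j) → (∀ l, l < half (fm i) (D i) → μ l = l) →
      ∀ l, l < D i → Eqv2 A i l j l := by
    intro hD hf h l hl
    by_cases h1 : l < half (fm i) (D i)
    · have h2 := hμ2 l h1
      rwa [h l h1] at h2
    · have hfi : fm i := by
        by_contra hfi
        rw [half_lin hfi] at h1
        exact h1 hl
      have h3 : D i - 1 - l < half (fm i) (D i) := by
        rw [half_form hfi] at h1 ⊢
        omega
      have h2 := hμ2 _ h3
      rw [h _ h3] at h2
      have h4 : Eqv2 A i l i (D i - 1 - l) :=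
        (hA.own_iff hl (by omega)).2 (Or.inr ⟨hfi, by omega⟩)
      have h5 : Eqv2 A j (D i - 1 - l) j l :=
        (hA.own_iff (by omega) (by omega)).2 (Or.inr ⟨hf.1 hfi, by omega⟩)
      exact (h4.trans h2).trans h5
  have hN : ∀ l, l < half (fm i) (D i) → sv (fm i) (D i) l = sv (fm j) (D j) (μ l) := by
    intro l hl
    have h1 := hμ1 l hl
    exact hA.numbers (by omega) (by omega) (by omega) (by omega) (hμ2 l hl) (hμ2 l hl)
  by_cases hn1 : half (fm i) (D i) = 1
  · -- only one class
    have hid : ∀ l, l < half (fm i) (D i) → μ l = l := by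
      intro l hl
      have h1 := hμ1 l hl
      omega
    have hfi : fm i := by
      by_contra hfi
      rw [half_lin hfi] at hn1
      exact hlin i hfi hn1
    have hfj : fm j := by
      by_contra hfj
      rw [hn, half_lin hfj] at hn1
      exact hlin j hfj hn1
    have h1 := hpair i j hfi hfj
    have h2 := hpair j i hfj hfi
    have h3 := hn1
    rw [hn] at h3
    rw [half_form hfi] at hn1
    rw [half_form hfj] at h3
    have hD : D i = D j := by omega
    exact ⟨hD, ⟨fun _ => hfj, fun _ => hfi⟩, Or.inl (hext hD ⟨fun _ => hfj, fun _ => hfi⟩ hid)⟩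
  · have hsv0 : sv (fm i) (D i) 0 = -2 * (D i : ℤ) := by
      rw [sv_eq hpos]
      · push_cast
        ring
      · rintro ⟨h1, h2⟩
        rw [half_form h1] at hn1
        omega
    rcases hcase with h | h
    · -- the identity
      have h1 := hN 0 hpos
      rw [h 0 hpos, hsv0, sv_eq (by omega)] at h1
      · have hD : D i = D j := by
          push_cast at h1
          have h2 : (D i : ℤ) = D j := by linarith
          exact_mod_cast h2
        have hf : fm i ↔ fm j := by
          by_cases hfi : fm i <;> by_cases hfj : fm j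
          · exact ⟨fun _ => hfj, fun _ => hfi⟩
          · rw [half_form hfi] at hn hn1
            rw [half_lin hfj] at hn
            omega
          · rw [half_lin hfi] at hn hn1
            rw [half_form hfj] at hn
            omega
          · exact ⟨fun h => absurd h hfi, fun h => absurd h hfj⟩
        exact ⟨hD, hf, Or.inl (hext hD hf h)⟩
      · rintro ⟨h1, h2⟩
        rw [hn, half_form h1] at hn1
        omega
    · -- the reversal
      obtain ⟨n, hn'⟩ : ∃ n, half (fm i) (D i) = n + 1 := ⟨half (fm i) (D i) - 1, by omega⟩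
      have hμ0 : μ 0 = n := by
        have h1 := h 0 hpos
        omega
      have h1 := hN 0 hpos
      rw [hμ0, hsv0] at h1
      by_cases hfj : fm j
      · have hQ : (D j + 1) / 2 = n + 1 := by
          rw [← half_form hfj, ← hn, hn']
        by_cases hQ2 : 2 * n + 2 = D j
        · -- even
          rw [sv_last hfj hQ2, ← hQ2] at h1
          push_cast at h1
          by_cases hfi : fm i
          · have hP : (D i + 1) / 2 = n + 1 := by rw [← half_form hfi, hn']
            have hP' : D i = 2 * n + 1 ∨ D i = 2 * n + 2 := by omega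
            rcases hP' with h2 | h2
            · rw [h2] at h1
              push_cast at h1
              have h3 : ((n : ℤ) - 1) * n = 0 := by linear_combination h1
              rcases mul_eq_zero.1 h3 with h4 | h4
              · have h5 : n = 1 := by omega
                exact absurd ⟨by omega, by omega⟩ (hpair i j hfi hfj).2
              · omega
            · rw [h2] at h1
              push_cast at h1
              have h3 : ((n : ℤ) - 2) * (n + 1) = 0 := by linear_combination h1
              rcases mul_eq_zero.1 h3 with h4 | h4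
              · exact absurd (show D i = 6 by omega) (hf6 i hfi)
              · omega
          · have hP : D i = n + 1 := by rw [← half_lin hfi (D i), hn']
            rw [hP] at h1
            push_cast at h1
            have h3 : (n : ℤ) * (n + 1) = 0 := by linear_combination h1
            rcases mul_eq_zero.1 h3 with h4 | h4
            · omega
            · omega
        · -- odd
          have hQ3 : D j = 2 * n + 1 := by omega
          rw [sv_eq (by omega) (fun h2 => hQ2 h2.2), hQ3] at h1
          push_cast at h1
          by_cases hfi : fm i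
          · have hP : (D i + 1) / 2 = n + 1 := by rw [← half_form hfi, hn']
            have hP' : D i = 2 * n + 1 ∨ D i = 2 * n + 2 := by omega
            rcases hP' with h2 | h2
            · rw [h2] at h1
              push_cast at h1
              have h3 : (n : ℤ) * n = 0 := by linarith [h1]
              rcases mul_eq_zero.1 h3 with h4 | h4
              · omega
              · omega
            · rw [h2] at h1
              push_cast at h1
              have h3 : ((n : ℤ) - 1) * (n + 1) = 0 := by linarith [h1]
              rcases mul_eq_zero.1 h3 with h4 | h4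
              · exact absurd ⟨by omega, by omega⟩ (hpair j i hfj hfi).2
              · omega
          · have hP : D i = n + 1 := by rw [← half_lin hfi (D i), hn']
            rw [hP] at h1
            push_cast at h1
            have h3 : (n : ℤ) * (n + 1) = 0 := by linarith [h1]
            rcases mul_eq_zero.1 h3 with h4 | h4
            · omega
            · omega
      · have hQ : D j = n + 1 := by
          rw [← half_lin hfj (D j), ← hn, hn']
        by_cases hfi : fm i
        · exfalso
          rw [sv_eq (by omega) (fun h2 => hfj h2.1), hQ] at h1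
          push_cast at h1
          have hP : (D i + 1) / 2 = n + 1 := by rw [← half_form hfi, hn']
          have h2 : (D i : ℤ) = n + 1 := by linarith [h1]
          omega
        · have hP : D i = n + 1 := by rw [← half_lin hfi (D i), hn']
          refine ⟨by omega, ⟨fun h => absurd h hfi, fun h => absurd h hfj⟩,
            Or.inr ⟨hfi, fun l hl => ?_⟩⟩
          have h2 := h l (by omega)
          have h3 := hμ2 l (by omega)
          rwa [show μ l = D i - 1 - l by omega] at h3

end Pool.Agent.Helper2.OP
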