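import Pool.Agent.Helper2.OP.Inter

/-!
# Chains which are not matched

If no intertwining operators up to scalars exist between the `T i` then the Lie algebra contains
the principal triples supported at one place.
-/

set_option autoImplicit false
set_option linter.unusedSectionVars false

namespace Pool.Agent.Helper2.OP

open Module Finset Pool.Agent.Y126.JB Pool.Agent.Y126.MU Pool.Agent.Helper2.MU
  Pool.Agent.Helper2.GLM Pool.Agent.Y130

variable {K : Type} [Field K] [CharZero K] {I : Type} {T : I → Type}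
  [∀ i, AddCommGroup (T i)] [∀ i, Module K (T i)] [∀ i, FiniteDimensional K (T i)]
  {D : I → ℕ} {w : ∀ i, ℕ → T i}
  {L : Submodule K (∀ i, End K (T i))} {e h f : ∀ i, End K (T i)}
  (hp : ∀ i, Prin (e i) (h i) (f i) (D i) (w i))
  (hbr : ∀ Y ∈ L, ∀ Z ∈ L, Y * Z - Z * Y ∈ L)

include hp in
theorem exists_W [IsAlgClosed K] (hdim : ∀ i, finrank K (T i) = D i + 1) {i j : I} (hD : D i = D j) :
    ∃ W : T i ≃ₗ[K] T j, ∀ l, W (w i l) = w j l := by
  obtain ⟨bi, hbi⟩ := (hp i).exists_basis (hdim i)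
  obtain ⟨bj, hbj⟩ := (hp j).exists_basis (hdim j)
  refine ⟨bi.equiv bj (finCongr (by rw [hD])), fun l => ?_⟩
  rcases Nat.lt_or_ge l (D i + 1) with hl | hl
  · have h1 : w i l = bi ⟨l, hl⟩ := (hbi ⟨l, hl⟩).symm
    rw [h1, Basis.equiv_apply, hbj]
    rfl
  · rw [(hp i).zero (by omega), (hp j).zero (by omega), map_zero]

include hp in
/-- The intertwining operators up to scalars for the group. -/
theorem sim_of_inter {Γ : Type} [Group Γ] (ρ : ∀ i, Representation K Γ (T i))
    (hconj : ∀ g, ∀ X ∈ L, (fun i => ρ i g * X i * ρ i g⁻¹) ∈ L)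
    (hdim : ∀ i, finrank K (T i) = D i + 1)
    (heL : e ∈ L) (hhL : h ∈ L) {i j : I} (hDij : D i = D j) (W : T i ≃ₗ[K] T j)
    (hW : ∀ l, W (w i l) = w j l)
    (hint : ∀ X ∈ L, ∃ c : K, ∀ v, W (X i v) = X j (W v) + c • W v) (g : Γ) :
    ∃ c : K, ∀ v, W (ρ i g v) = c • ρ j g (W v) := by
  have hWx : ∀ (x : ∀ i, End K (T i)), (∀ l, l ≤ D i → W (x i (w i l)) = x j (W (w i l))) →
      ∀ v, W (x i v) = x j (W v) := by
    intro x hx v
    have h1 : (W : T i →ₗ[K] T j) ∘ₗ x i = x j ∘ₗ (W : T i →ₗ[K] T j) :=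
      (hp i).ext fun l hl => hx l hl
    exact LinearMap.congr_fun h1 v
  have hWe := hWx e fun l _ => by rw [hW, (hp i).e_w, (hp j).e_w, hW]
  have hWh := hWx h fun l _ => by rw [hW, (hp i).h_w, (hp j).h_w, map_smul, hW, hDij]
  have hr : ∀ i v, ρ i g⁻¹ (ρ i g v) = v := by
    intro i v
    rw [← Module.End.mul_apply, ← map_mul, inv_mul_cancel, map_one, Module.End.one_apply]
  have hr' : ∀ i v, ρ i g (ρ i g⁻¹ v) = v := by
    intro i v
    rw [← Module.End.mul_apply, ← map_mul, mul_inv_cancel, map_one, Module.End.one_apply]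
  let U : End K (T j) := ρ j g⁻¹ ∘ₗ (W : T i →ₗ[K] T j) ∘ₗ ρ i g ∘ₗ (W.symm : T j →ₗ[K] T i)
  let V : End K (T j) := (W : T i →ₗ[K] T j) ∘ₗ ρ i g⁻¹ ∘ₗ (W.symm : T j →ₗ[K] T i) ∘ₗ ρ j g
  have hU : ∀ v, U (W v) = ρ j g⁻¹ (W (ρ i g v)) := by
    intro v
    change ρ j g⁻¹ (W (ρ i g (W.symm (W v)))) = _
    rw [LinearEquiv.symm_apply_apply]
  have hUV : U * V = 1 := by
    refine LinearMap.ext fun v => ?_
    change ρ j g⁻¹ (W (ρ i g (W.symm (W (ρ i g⁻¹ (W.symm (ρ j g v))))))) = v
    rw [LinearEquiv.symm_apply_apply, hr', LinearEquiv.apply_symm_apply, hr]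
  have hVU : V * U = 1 := by
    refine LinearMap.ext fun v => ?_
    change W (ρ i g⁻¹ (W.symm (ρ j g (ρ j g⁻¹ (W (ρ i g (W.symm v))))))) = v
    rw [hr', LinearEquiv.symm_apply_apply, hr, LinearEquiv.apply_symm_apply]
  have hpos : 0 < finrank K (T j) := by
    rw [hdim]
    omega
  have hcomm : ∀ x ∈ L, (∀ v, W (x i v) = x j (W v)) → LinearMap.trace K (T j) (x j) = 0 →
      ad K (x j) U = 0 := by
    intro x hx hxW hxt
    obtain ⟨c, hc⟩ := hint _ (hconj g x hx)
    have h1 : U * x j = x j * U + c • U := by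
      refine LinearMap.ext fun u => ?_
      obtain ⟨v, rfl⟩ := W.surjective u
      have h2 := congrArg (ρ j g⁻¹) (hc (ρ i g v))
      rw [Module.End.mul_apply, Module.End.mul_apply, Module.End.mul_apply,
        Module.End.mul_apply, hr, map_add, map_smul, hr] at h2
      rw [Module.End.mul_apply, LinearMap.add_apply, Module.End.mul_apply, LinearMap.smul_apply,
        ← hxW, hU, hU, h2]
    have h2 : c = 0 := by
      refine scalar_zero hpos ?_
      have h3 : c • (1 : End K (T j)) = U * x j * V - x j := by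
        rw [h1, add_mul, mul_assoc, hUV, smul_mul_assoc, hUV]
        rw [mul_one]
        abel
      rw [h3, map_sub, LinearMap.trace_mul_comm, ← mul_assoc, hVU, one_mul, sub_self]
    rw [ad_apply, h1, h2, zero_smul, add_zero, sub_self]
  have hte : LinearMap.trace K (T j) (e j) = 0 := by
    have h1 := congrArg (LinearMap.trace K (T j)) (hp j).he
    rw [trace_br, map_smul, smul_eq_mul] at h1
    exact (mul_eq_zero.1 h1.symm).resolve_left two_ne_zero
  have hth : LinearMap.trace K (T j) (h j) = 0 := by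
    rw [(hp j).ef, trace_br]
  have hUe := hcomm e heL hWe hte
  have hUh := hcomm h hhL hWh hth
  have hU0 : U ≠ 0 := by
    intro h0
    rw [h0, zero_mul] at hUV
    have h1 := LinearMap.congr_fun hUV (w j 0)
    rw [LinearMap.zero_apply, Module.End.one_apply] at h1
    exact (hp j).ne_zero (Nat.zero_le _) h1.symm
  obtain ⟨k, c, -, hk, -, hUc⟩ := (hp j).centr hU0 hUe (a := 0) (by rw [hUh, zero_smul])
  have hk0 : k = 0 := by
    have h1 : (k : K) = 0 := (mul_eq_zero.1 hk.symm).resolve_left two_ne_zero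
    exact_mod_cast h1
  rw [hk0, pow_zero] at hUc
  refine ⟨c, fun v => ?_⟩
  have h1 := congrArg (ρ j g) (hU v)
  rw [hr', hUc, LinearMap.smul_apply, Module.End.one_apply, map_smul] at h1
  exact h1.symm

include hp in
/-- The operators supported at one place. -/
theorem single_mem [DecidableEq I] (heL : e ∈ L) (hfL : f ∈ L) {i : I} {r : I → ℕ → K}
    (hr : r ∈ FA D w L) (hr1 : ∀ l, l < D i → r i l = 1)
    (hr0 : ∀ j, j ≠ i → ∀ l, l < D j → r j l = 0) :
    Pi.single i (e i) ∈ L ∧ Pi.single i (f i) ∈ L := by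
  obtain ⟨⟨X, hX, hX1⟩, Y, hY, hY0, hY1⟩ := FA_rf hp heL hfL hr
  constructor
  · have h1 : X = Pi.single i (e i) := by
      funext j
      by_cases hj : j = i
      · subst hj
        rw [Pi.single_eq_same]
        refine (hp j).ext fun l hl => ?_
        rw [hX1 j l hl, (hp j).e_w]
        rcases Nat.eq_or_lt_of_le hl with h2 | h2
        · rw [h2, (hp j).top, smul_zero]
        · rw [hr1 l h2, one_smul]
      · rw [Pi.single_eq_of_ne hj]
        refine (hp j).ext fun l hl => ?_
        rw [hX1 j l hl, LinearMap.zero_apply]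
        rcases Nat.eq_or_lt_of_le hl with h2 | h2
        · rw [h2, (hp j).top, smul_zero]
        · rw [hr0 j hj l h2, zero_smul]
    rw [← h1]
    exact hX
  · have h1 : Y = Pi.single i (f i) := by
      funext j
      by_cases hj : j = i
      · subst hj
        rw [Pi.single_eq_same]
        refine (hp j).ext fun l hl => ?_
        cases l with
        | zero => rw [hY0, (hp j).f_zero]
        | succ l =>
          rw [hY1 j l (by omega), (hp j).f_w, hr1 l (by omega), one_mul]
          rfl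
      · rw [Pi.single_eq_of_ne hj]
        refine (hp j).ext fun l hl => ?_
        cases l with
        | zero => rw [hY0, LinearMap.zero_apply]
        | succ l =>
          rw [hY1 j l (by omega), hr0 j hj l (by omega), zero_mul, zero_smul,
            LinearMap.zero_apply]
    rw [← h1]
    exact hY

/-- the idempotent of one chain -/
theorem exists_chain_idem [Fintype I] {A : Subalgebra K (I → ℕ → K)} {i : I}
    (h : ∀ j, j ≠ i → ∀ l l', l < D i → l' < D j → ¬ Eqv2 A i l j l') :
    ∃ r ∈ A, (∀ l, l < D i → r i l = 1) ∧ ∀ j, j ≠ i → ∀ l, l < D j → r j l = 0 := by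
  classical
  choose b hb hb1 using fun l => exists_idem2 (D := D) (A := A) i l
  refine ⟨1 - ∏ l ∈ range (D i), (1 - b l), A.sub_mem A.one_mem
    (A.prod_mem fun l _ => A.sub_mem A.one_mem (hb l)), fun l hl => ?_, fun j hj l hl => ?_⟩
  · rw [Pi.sub_apply, Pi.sub_apply, Finset.prod_apply, Finset.prod_apply,
      Finset.prod_eq_zero (mem_range.2 hl), Pi.one_apply, Pi.one_apply, sub_zero]
    rw [Pi.sub_apply, Pi.sub_apply, hb1 l i l hl, if_pos (show Eqv2 A i l i l from fun _ _ => rfl), Pi.one_apply,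
      Pi.one_apply, sub_self]
  · rw [Pi.sub_apply, Pi.sub_apply, Finset.prod_apply, Finset.prod_apply,
      Finset.prod_eq_one, Pi.one_apply, Pi.one_apply, sub_self]
    intro m hm
    rw [Pi.sub_apply, Pi.sub_apply, hb1 m j l hl, if_neg (h j hj m l (mem_range.1 hm) hl),
      Pi.one_apply, Pi.one_apply, sub_zero]

end Pool.Agent.Helper2.OP
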